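import Pool.Agent.Lib.MP_47effe_an.Defs

/-!
# Crossed products and microstates: the 2-norm of a tracial state
-/

namespace QWEP

open scoped ComplexOrder InnerProductSpace

/-- `τ` is a tracial state. -/
structure TracialState {A : Type} [CStarAlgebra A] (τ : A →ₗ[ℂ] ℂ) : Prop where
  one : τ 1 = 1
  pos : ∀ x, 0 ≤ τ (star x * x)
  comm : ∀ x y, τ (x * y) = τ (y * x)

/-- The 2-norm. -/
noncomputable def n2 {A : Type} [CStarAlgebra A] (τ : A →ₗ[ℂ] ℂ) (x : A) : ℝ := √(τ (star x * x)).re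

section gns

variable {A : Type} [CStarAlgebra A] [PartialOrder A] [StarOrderedRing A] (f : A →ₚ[ℂ] ℂ)

theorem gns_norm (x : A) : ‖f.toPreGNS x‖ = √(f (star x * x)).re := rfl

theorem gns_left (a x : A) : ‖f.toPreGNS (a * x)‖ ≤ ‖a‖ * ‖f.toPreGNS x‖ := by
  have h1 : f.leftMulMapPreGNS a (f.toPreGNS x) = f.toPreGNS (a * x) := rfl
  rw [← h1]
  refine (f.leftMulMapPreGNS a).le_of_opNorm_le ?_ _
  exact LinearMap.mkContinuous_norm_le _ (norm_nonneg a) _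

theorem gns_apply (x : A) (h1 : f 1 = 1) : ‖f x‖ ≤ ‖f.toPreGNS x‖ := by
  have h2 : f x = ⟪f.toPreGNS 1, f.toPreGNS x⟫_ℂ := by
    rw [PositiveLinearMap.preGNS_inner_def]
    simp
  rw [h2]
  refine (norm_inner_le_norm _ _).trans ?_
  have h3 : ‖f.toPreGNS 1‖ = 1 := by
    rw [gns_norm, star_one, one_mul, h1]
    simp
  rw [h3, one_mul]

end gns

variable {A : Type} [CStarAlgebra A] {τ : A →ₗ[ℂ] ℂ}

theorem exists_pos (hτ : TracialState τ) : ∃ (_ : PartialOrder A) (_ : StarOrderedRing A) (f : A →ₚ[ℂ] ℂ), ∀ x, f x = τ x := by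
  letI := CStarAlgebra.spectralOrder A
  haveI := CStarAlgebra.spectralOrderedRing A
  refine ⟨inferInstance, inferInstance, PositiveLinearMap.mk₀ τ fun a ha => ?_, fun x => rfl⟩
  obtain ⟨b, rfl⟩ := CStarAlgebra.nonneg_iff_eq_star_mul_self.1 ha
  exact hτ.pos b

theorem n2_nonneg (x : A) : 0 ≤ n2 τ x := Real.sqrt_nonneg _

theorem n2_add (hτ : TracialState τ) (x y : A) : n2 τ (x + y) ≤ n2 τ x + n2 τ y := by
  obtain ⟨_, _, f, hf⟩ := exists_pos hτ
  have h1 : ∀ x, n2 τ x = ‖f.toPreGNS x‖ := fun x => by rw [gns_norm, hf]; rfl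
  rw [h1, h1, h1, map_add]
  exact norm_add_le _ _

theorem n2_left (hτ : TracialState τ) (a x : A) : n2 τ (a * x) ≤ ‖a‖ * n2 τ x := by
  obtain ⟨_, _, f, hf⟩ := exists_pos hτ
  have h1 : ∀ x, n2 τ x = ‖f.toPreGNS x‖ := fun x => by rw [gns_norm, hf]; rfl
  rw [h1, h1]
  exact gns_left f a x

theorem n2_star (hτ : TracialState τ) (x : A) : n2 τ (star x) = n2 τ x := by
  rw [n2, n2, star_star, hτ.comm]

theorem n2_right (hτ : TracialState τ) (a x : A) : n2 τ (x * a) ≤ n2 τ x * ‖a‖ := by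
  rw [← n2_star hτ, star_mul, mul_comm, ← n2_star hτ x, ← norm_star a]
  exact n2_left hτ _ _

theorem n2_apply (hτ : TracialState τ) (x : A) : ‖τ x‖ ≤ n2 τ x := by
  obtain ⟨_, _, f, hf⟩ := exists_pos hτ
  have h1 : n2 τ x = ‖f.toPreGNS x‖ := by rw [gns_norm, hf]; rfl
  rw [h1, ← hf]
  exact gns_apply f x (by rw [hf, hτ.one])

theorem n2_map {θ : A ≃⋆ₐ[ℂ] A} (hθ : ∀ x, τ (θ x) = τ x) (x : A) : n2 τ (θ x) = n2 τ x := by
  rw [n2, n2, ← map_star, ← map_mul, hθ]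

end QWEP
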