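import Pool.Agent.Lib.MP_47effe_an.Mat

/-!
# Crossed products and microstates: two actions with the same classes modulo inner automorphisms
-/

namespace QWEP

open Finset

variable {A G L : Type} [CStarAlgebra A] [Group G] [Group L] {τ : A →ₗ[ℂ] ℂ}

/-- `v g` implements `α g` up to `γ (ρ g)`. -/
structure Impl (α : G →* (A ≃⋆ₐ[ℂ] A)) (γ : L →* (A ≃⋆ₐ[ℂ] A)) (ρ : G →* L) (v : G → A) : Prop where
  unit : ∀ g, v g ∈ unitary A
  impl : ∀ g x, α g x = v g * γ (ρ g) x * star (v g)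

variable {α : G →* (A ≃⋆ₐ[ℂ] A)} {γ : L →* (A ≃⋆ₐ[ℂ] A)} {ρ : G →* L} {v : G → A}

theorem central (hZ : ∀ z : A, (∀ x, z * x = x * z) → ∃ c : ℂ, z = c • (1 : A)) (h01 : (1 : A) ≠ 0)
    {u w : A} (hu : u ∈ unitary A) (hw : w ∈ unitary A) (θ : A → A) (hθ : Function.Surjective θ)
    (h : ∀ x, u * θ x * star u = w * θ x * star w) : ∃ c : ℂ, c * star c = 1 ∧ u = c • w := by
  have h1 : star u * u = 1 := (Unitary.mem_iff.1 hu).1
  have h2 : u * star u = 1 := (Unitary.mem_iff.1 hu).2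
  have h3 : star w * w = 1 := (Unitary.mem_iff.1 hw).1
  have h4 : w * star w = 1 := (Unitary.mem_iff.1 hw).2
  have h5 : ∀ x, star w * u * x = x * (star w * u) := by
    intro x
    obtain ⟨y, rfl⟩ := hθ x
    have h6 := h y
    calc star w * u * θ y = star w * (u * θ y * star u) * u := by
          rw [show star w * (u * θ y * star u) * u = star w * u * θ y * (star u * u) by noncomm_ring, h1, mul_one]
      _ = star w * (w * θ y * star w) * u := by rw [h6]
      _ = (star w * w) * θ y * (star w * u) := by noncomm_ring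
      _ = θ y * (star w * u) := by rw [h3, one_mul]
  obtain ⟨c, hc⟩ := hZ _ h5
  have h7 : u = c • w := by
    calc u = (w * star w) * u := by rw [h4, one_mul]
      _ = w * (star w * u) := by rw [mul_assoc]
      _ = c • w := by rw [hc, mul_smul_comm, mul_one]
  refine ⟨c, ?_, h7⟩
  have h8 : (c * star c) • (1 : A) = 1 := by
    calc (c * star c) • (1 : A) = (c • w) * star (c • w) := by
          rw [star_smul, smul_mul_smul_comm, h4]
      _ = 1 := by rw [← h7, h2]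
  have h9 : (c * star c - 1) • (1 : A) = 0 := by rw [sub_smul, h8, one_smul, sub_self]
  rcases smul_eq_zero.1 h9 with h10 | h10
  · exact sub_eq_zero.1 h10
  · exact absurd h10 h01

theorem map_unitary (θ : A ≃⋆ₐ[ℂ] A) {u : A} (hu : u ∈ unitary A) : θ u ∈ unitary A := by
  rw [Unitary.mem_iff] at hu ⊢
  rw [← map_star, ← map_mul, ← map_mul, hu.1, hu.2, map_one]
  exact ⟨rfl, rfl⟩

section

variable (hZ : ∀ z : A, (∀ x, z * x = x * z) → ∃ c : ℂ, z = c • (1 : A)) (h01 : (1 : A) ≠ 0)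
  (hv : Impl α γ ρ v)

include hZ h01 hv

theorem impl_mul (g h : G) : ∃ c : ℂ, c * star c = 1 ∧ v g * γ (ρ g) (v h) = c • v (g * h) := by
  refine central hZ h01 (mul_mem (hv.unit g) (map_unitary _ (hv.unit h))) (hv.unit (g * h)) (γ (ρ (g * h)))
    (γ (ρ (g * h))).surjective fun x => ?_
  rw [← hv.impl, map_mul α, StarAlgEquiv.mul_apply, hv.impl h, hv.impl g, map_mul ρ, map_mul γ, StarAlgEquiv.mul_apply,
    map_mul (γ (ρ g)), map_mul (γ (ρ g)), map_star, star_mul]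
  noncomm_ring

theorem impl_one : ∃ c : ℂ, c * star c = 1 ∧ v 1 = c • (1 : A) := by
  refine central hZ h01 (hv.unit 1) (one_mem _) (fun x => x) Function.surjective_id fun x => ?_
  have h1 := hv.impl 1 x
  rw [map_one α, map_one ρ, map_one γ, StarAlgEquiv.one_apply] at h1
  rw [← h1, one_mul, star_one, mul_one]

theorem impl_star (g : G) : ∃ c : ℂ, c * star c = 1 ∧ γ (ρ g⁻¹) (star (v g)) = c • v g⁻¹ := by
  obtain ⟨c, hc, h1⟩ := impl_mul hZ h01 hv g⁻¹ g
  obtain ⟨d, hd, h2⟩ := impl_one hZ h01 hv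
  rw [inv_mul_cancel, h2, smul_smul] at h1
  have h3 : γ (ρ g⁻¹) (v g) = (c * d) • star (v g⁻¹) := by
    calc γ (ρ g⁻¹) (v g) = (star (v g⁻¹) * v g⁻¹) * γ (ρ g⁻¹) (v g) := by
          rw [(Unitary.mem_iff.1 (hv.unit g⁻¹)).1, one_mul]
      _ = star (v g⁻¹) * (v g⁻¹ * γ (ρ g⁻¹) (v g)) := by rw [mul_assoc]
      _ = (c * d) • star (v g⁻¹) := by rw [h1, mul_smul_comm, mul_one]
  refine ⟨star (c * d), ?_, ?_⟩
  · rw [star_star, star_mul']
    calc star c * star d * (c * d) = (c * star c) * (d * star d) := by ring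
      _ = 1 := by rw [hc, hd, one_mul]
  · rw [map_star, h3, star_smul, star_star]

end

/-- `a` and `b` are the images of `s` under the two maps, up to the same scalar of modulus one. -/
def Rel (ρ : G →* L) (v : G → A) (s : Cr α) (a b : Cr γ) : Prop :=
  ∃ c : ℂ, c * star c = 1 ∧ a = ⟨c • (s.x * v s.g), ρ s.g⟩ ∧ b = ⟨c • v s.g, ρ s.g⟩

section

variable (hZ : ∀ z : A, (∀ x, z * x = x * z) → ∃ c : ℂ, z = c • (1 : A)) (h01 : (1 : A) ≠ 0)
  (hv : Impl α γ ρ v)

include hZ h01 hv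

theorem rel_one : Rel ρ v (1 : Cr α) (1 : Cr γ) 1 := by
  obtain ⟨c, hc, h1⟩ := impl_one hZ h01 hv
  have h2 : star c • v 1 = (1 : A) := by
    rw [h1, smul_smul, mul_comm, hc, one_smul]
  refine ⟨star c, by rw [star_star, mul_comm, hc], ?_, ?_⟩
  · refine Cr.ext ?_ ?_
    · change (1 : A) = star c • (1 * v 1)
      rw [one_mul, h2]
    · change (1 : L) = ρ 1
      rw [map_one]
  · refine Cr.ext ?_ ?_
    · change (1 : A) = star c • v 1
      rw [h2]
    · change (1 : L) = ρ 1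
      rw [map_one]

theorem rel_mul {s s' : Cr α} {a a' b b' : Cr γ} (h : Rel ρ v s a b) (h' : Rel ρ v s' a' b') :
    Rel ρ v (s * s') (a * a') (b * b') := by
  obtain ⟨c, hc, rfl, rfl⟩ := h
  obtain ⟨c', hc', rfl, rfl⟩ := h'
  obtain ⟨d, hd, h1⟩ := impl_mul hZ h01 hv s.g s'.g
  refine ⟨c * c' * d, ?_, ?_, ?_⟩
  · rw [star_mul', star_mul']
    calc c * c' * d * (star c * star c' * star d) = (c * star c) * (c' * star c') * (d * star d) := by ring
      _ = 1 := by rw [hc, hc', hd, one_mul, one_mul]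
  · refine Cr.ext ?_ (map_mul ρ _ _).symm
    change c • (s.x * v s.g) * γ (ρ s.g) (c' • (s'.x * v s'.g)) = (c * c' * d) • ((s.x * α s.g s'.x) * v (s.g * s'.g))
    rw [show (c * c' * d) • ((s.x * α s.g s'.x) * v (s.g * s'.g)) = (c * c') • ((s.x * α s.g s'.x) * (d • v (s.g * s'.g))) by
      rw [mul_smul_comm, smul_smul], ← h1, hv.impl, map_smul, smul_mul_smul_comm, map_mul (γ (ρ s.g))]
    have h2 := (Unitary.mem_iff.1 (hv.unit s.g)).1
    congr 1
    calc s.x * v s.g * (γ (ρ s.g) s'.x * γ (ρ s.g) (v s'.g))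
        = s.x * (v s.g * γ (ρ s.g) s'.x * (1 * γ (ρ s.g) (v s'.g))) := by noncomm_ring
      _ = s.x * (v s.g * γ (ρ s.g) s'.x * (star (v s.g) * v s.g * γ (ρ s.g) (v s'.g))) := by rw [h2]
      _ = _ := by noncomm_ring
  · refine Cr.ext ?_ (map_mul ρ _ _).symm
    change c • v s.g * γ (ρ s.g) (c' • v s'.g) = (c * c' * d) • v (s.g * s'.g)
    rw [map_smul, smul_mul_smul_comm, mul_smul (c * c') d, ← h1]

theorem rel_st (s : Cr α) : Rel ρ v s.st (Cr.st (⟨s.x * v s.g, ρ s.g⟩ : Cr γ)) (Cr.st (⟨v s.g, ρ s.g⟩ : Cr γ)) := by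
  obtain ⟨c, hc, h1⟩ := impl_star hZ h01 hv s.g
  refine ⟨c, hc, ?_, ?_⟩
  · refine Cr.ext ?_ (map_inv ρ _).symm
    change γ (ρ s.g)⁻¹ (star (s.x * v s.g)) = c • (α s.g⁻¹ (star s.x) * v s.g⁻¹)
    rw [← map_inv ρ, star_mul, map_mul, h1, hv.impl, smul_mul_assoc]
    congr 1
    rw [mul_assoc, (Unitary.mem_iff.1 (hv.unit s.g⁻¹)).1, mul_one]
  · refine Cr.ext ?_ (map_inv ρ _).symm
    change γ (ρ s.g)⁻¹ (star (v s.g)) = c • v s.g⁻¹
    rw [← map_inv ρ, h1]

theorem rel_ev {ι : Type} (z : ι → Cr α) (w : List (ι × Bool)) :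
    Rel ρ v (ev Cr.st z w) (ev Cr.st (fun i => (⟨(z i).x * v (z i).g, ρ (z i).g⟩ : Cr γ)) w)
      (ev Cr.st (fun i => (⟨v (z i).g, ρ (z i).g⟩ : Cr γ)) w) := by
  induction w with
  | nil => exact rel_one hZ h01 hv
  | cons p w ih =>
    rw [ev_cons, ev_cons, ev_cons]
    refine rel_mul hZ h01 hv ?_ ih
    split_ifs
    · exact rel_st hZ h01 hv (z p.1)
    · exact ⟨1, by rw [star_one, one_mul], by rw [one_smul], by rw [one_smul]⟩

/-- Covariant microstates only depend on the classes modulo inner automorphisms. -/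
theorem cov_of_impl (hτ : τ 1 = 1) (h : Cov γ τ) : Cov α τ := by
  intro ι hι z N ε hε
  obtain ⟨B, hB0, hB⟩ := exists_bound N fun w : List (ι × Bool) => τ (ev Cr.st z w).x
  have hε' : 0 < min 1 (ε / (2 + B)) := lt_min one_pos (by positivity)
  obtain ⟨κ, h1, h2, h3, Y, h4, h5⟩ := h ι hι (fun i => (⟨(z i).x * v (z i).g, ρ (z i).g⟩ : Cr γ)) N _ hε'
  obtain ⟨κ', h1', h2', h3', Y', h4', h5'⟩ := h ι hι (fun i => (⟨v (z i).g, ρ (z i).g⟩ : Cr γ)) N _ hε'
  refine ⟨κ × κ', inferInstance, inferInstance, inferInstance, fun i => kc (Y i) (Y' i), fun i => ?_, fun w hw hg => ?_⟩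
  · haveI : Nontrivial A := ⟨1, 0, h01⟩
    refine bd_mono (kc_bd (h4 i) (h4' i)) ?_
    have h6 : ‖v (z i).g‖ = 1 := CStarRing.norm_of_mem_unitary (hv.unit _)
    have h7 : ‖(z i).x * v (z i).g‖ ≤ ‖(z i).x‖ := by
      refine (norm_mul_le _ _).trans ?_
      rw [h6, mul_one]
    change |‖(z i).x * v (z i).g‖ * ‖v (z i).g‖| ≤ |‖(z i).x‖|
    rw [h6, mul_one, abs_of_nonneg (norm_nonneg _), abs_of_nonneg (norm_nonneg _)]
    exact h7
  rw [kc_ev, kc_ntr]
  obtain ⟨c, hc, h6, h7⟩ := rel_ev hZ h01 hv z w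
  obtain ⟨d, hd, h8⟩ := impl_one hZ h01 hv
  rw [hg] at h6 h7
  have h9 := h5 w hw (by rw [h6]; exact map_one ρ)
  have h9' := h5' w hw (by rw [h7]; exact map_one ρ)
  rw [h6] at h9
  rw [h7] at h9'
  have h10 : τ (c • ((ev Cr.st z w).x * v 1)) = (c * d) * τ (ev Cr.st z w).x := by
    rw [h8, mul_smul_comm, mul_one, smul_smul, map_smul, smul_eq_mul]
  have h11 : τ (c • v 1) = c * d := by
    rw [h8, smul_smul, map_smul, hτ, smul_eq_mul, mul_one]
  have h12 : ‖ntr (ev star Y w) - (c * d) * τ (ev Cr.st z w).x‖ ≤ min 1 (ε / (2 + B)) := by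
    rw [← h10]
    exact h9
  have h13 : ‖ntr (ev star Y' w) - c * d‖ ≤ min 1 (ε / (2 + B)) := by
    rw [← h11]
    exact h9'
  have h14 : (c * d) * star (c * d) = 1 := by
    rw [star_mul']
    calc c * d * (star c * star d) = (c * star c) * (d * star d) := by ring
      _ = 1 := by rw [hc, hd, one_mul]
  have h15 : ‖c * d‖ = 1 := by
    have h16 : ‖c * d‖ * ‖c * d‖ = 1 := by
      calc ‖c * d‖ * ‖c * d‖ = ‖c * d‖ * ‖star (c * d)‖ := by rw [norm_star]
        _ = ‖(c * d) * star (c * d)‖ := (norm_mul _ _).symm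
        _ = 1 := by rw [h14, norm_one]
    nlinarith [norm_nonneg (c * d)]
  have h16 : ‖ntr (ev star Y' w)‖ ≤ 2 := by
    have h17 := norm_sub_norm_le (ntr (ev star Y' w)) (c * d)
    have h18 := h13.trans (min_le_left _ _)
    linarith
  have h17 := hB w hw
  have h18 : ntr (ev star Y w) * star (ntr (ev star Y' w)) - τ (ev Cr.st z w).x =
      (ntr (ev star Y w) - (c * d) * τ (ev Cr.st z w).x) * star (ntr (ev star Y' w)) +
        (c * d) * τ (ev Cr.st z w).x * star (ntr (ev star Y' w) - c * d) := by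
    rw [star_sub]
    linear_combination (τ (ev Cr.st z w).x) * h14
  rw [h18]
  refine (norm_add_le _ _).trans ?_
  rw [norm_mul, norm_mul, norm_mul, norm_star, norm_star, h15, one_mul]
  have h19 : ‖ntr (ev star Y w) - (c * d) * τ (ev Cr.st z w).x‖ * ‖ntr (ev star Y' w)‖ ≤ min 1 (ε / (2 + B)) * 2 :=
    mul_le_mul h12 h16 (norm_nonneg _) hε'.le
  have h20 : ‖τ (ev Cr.st z w).x‖ * ‖ntr (ev star Y' w) - c * d‖ ≤ B * min 1 (ε / (2 + B)) :=
    mul_le_mul h17 h13 (norm_nonneg _) hB0.le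
  have h21 : (2 + B) * min 1 (ε / (2 + B)) ≤ ε := by
    calc (2 + B) * min 1 (ε / (2 + B)) ≤ (2 + B) * (ε / (2 + B)) :=
          mul_le_mul_of_nonneg_left (min_le_right _ _) (by positivity)
      _ = ε := by field_simp
  linarith

end

end QWEP
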