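import Pool.Agent.Lib.MP_47effe_an.Mat

/-!
# Crossed products and microstates: the canonical trace and hyperlinear groups
-/

namespace QWEP

open Finset

variable {A G : Type} [CStarAlgebra A] [Group G] {α : G →* (A ≃⋆ₐ[ℂ] A)} {τ : A →ₗ[ℂ] ℂ}

theorem cov_of_emb (h : Embeddable α τ) : Cov α τ := by
  intro ι hι z N ε hε
  obtain ⟨κ, h1, h2, h3, Z, h4, h5⟩ := h ι hι z N ε hε
  refine ⟨κ, h1, h2, h3, Z, h4, fun w hw hg => ?_⟩
  have h6 := h5 w hw
  rw [ctr, if_pos hg] at h6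
  exact h6

theorem emb_of_cov (hG : Hyperlinear G) (h : Cov α τ) : Embeddable α τ := by
  classical
  intro ι hι z N ε hε
  obtain ⟨κ, h1, h2, h3, Z, h4, h5⟩ := h ι hι z N (ε / 2) (by positivity)
  obtain ⟨B, hB0, hB⟩ := exists_bound N fun w : List (ι × Bool) => ntr (ev star Z w)
  obtain ⟨κ', h1', h2', h3', W, h4', h5'⟩ := hG ι hι (fun i => (z i).g) N (ε / (2 * B)) (by positivity)
  refine ⟨κ × κ', inferInstance, inferInstance, inferInstance, fun i => kc (Z i) (W i),
    fun i => bd_mono (kc_bd (h4 i) (h4' i)) (by rw [mul_one]), fun w hw => ?_⟩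
  rw [kc_ev, kc_ntr, ctr, ev_g]
  have h6 : ‖ntr (ev star W w) - (if ev (fun g : G => g⁻¹) (fun i => (z i).g) w = 1 then 1 else 0)‖ ≤ ε / (2 * B) := h5' w hw
  have h7 := hB w hw
  by_cases hg : ev (fun g : G => g⁻¹) (fun i => (z i).g) w = 1
  · rw [if_pos hg] at h6 ⊢
    have h8 := h5 w hw (by rw [ev_g]; exact hg)
    have h9 : ntr (ev star Z w) * star (ntr (ev star W w)) - τ (ev Cr.st z w).x =
        ntr (ev star Z w) * star (ntr (ev star W w) - 1) + (ntr (ev star Z w) - τ (ev Cr.st z w).x) := by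
      rw [star_sub, star_one]
      ring
    rw [h9]
    refine (norm_add_le _ _).trans ?_
    rw [norm_mul, norm_star]
    have h10 : ‖ntr (ev star Z w)‖ * ‖ntr (ev star W w) - 1‖ ≤ B * (ε / (2 * B)) :=
      mul_le_mul h7 h6 (norm_nonneg _) hB0.le
    have h11 : B * (ε / (2 * B)) = ε / 2 := by
      field_simp
    rw [h11] at h10
    linarith
  · rw [if_neg hg] at h6 ⊢
    rw [sub_zero] at h6 ⊢
    rw [norm_mul, norm_star]
    have h10 : ‖ntr (ev star Z w)‖ * ‖ntr (ev star W w)‖ ≤ B * (ε / (2 * B)) :=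
      mul_le_mul h7 h6 (norm_nonneg _) hB0.le
    have h11 : B * (ε / (2 * B)) = ε / 2 := by
      field_simp
    rw [h11] at h10
    linarith

end QWEP
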