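import Pool.Agent.Lib.MP_47effe_an.Co
import Pool.Agent.Lib.MP_47effe_an.Inner
import Pool.Agent.Lib.MP_47effe_an.Tens

/-!
# Crossed products and microstates: consequences
-/

namespace QWEP

open Finset

variable {A G L : Type} [CStarAlgebra A] [Group G] [Group L] {α : G →* (A ≃⋆ₐ[ℂ] A)} {γ : L →* (A ≃⋆ₐ[ℂ] A)} {τ : A →ₗ[ℂ] ℂ}

theorem ev_comap {S S' ι : Type} [Monoid S] [Monoid S'] (st : S → S) (st' : S' → S') (f : S' → S) (h1 : f 1 = 1)
    (hm : ∀ s t, f (s * t) = f s * f t) (hs : ∀ s, f (st' s) = st (f s)) (z : ι → S') (w : List (ι × Bool)) :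
    ev st (fun i => f (z i)) w = f (ev st' z w) := by
  induction w with
  | nil => exact h1.symm
  | cons p w ih =>
    rw [ev_cons, ev_cons, hm, ih]
    split_ifs
    · rw [hs]
    · rfl

/-- The crossed product embeds if and only if `G` is hyperlinear and there are covariant microstates. -/
theorem embeddable_iff (hτ : τ 1 = 1) (h01 : (1 : A) ≠ 0) : Embeddable α τ ↔ Hyperlinear G ∧ Cov α τ := by
  classical
  refine ⟨fun h => ⟨?_, cov_of_emb h⟩, fun h => emb_of_cov h.1 h.2⟩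
  intro ι hι z N ε hε
  haveI : Nontrivial A := ⟨1, 0, h01⟩
  obtain ⟨κ, i1, i2, i3, Z, h4, h5⟩ := h ι hι (fun i => (⟨1, z i⟩ : Cr α)) N ε hε
  refine ⟨κ, i1, i2, i3, Z, fun i => ?_, fun w hw => ?_⟩
  · have h6 := h4 i
    change Bd ‖(1 : A)‖ (Z i) at h6
    rwa [CStarRing.norm_one] at h6
  · have h6 : ev Cr.st (fun i => (⟨1, z i⟩ : Cr α)) w = ⟨1, ev (fun g : G => g⁻¹) z w⟩ := by
      refine ev_comap Cr.st (fun g : G => g⁻¹) (fun g => (⟨1, g⟩ : Cr α)) rfl (fun s t => ?_) (fun s => ?_) z w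
      · refine Cr.ext ?_ rfl
        change (1 : A) = 1 * α s 1
        rw [map_one (α s), mul_one]
      · refine Cr.ext ?_ rfl
        change (1 : A) = α s⁻¹ (star 1)
        rw [star_one, map_one (α s⁻¹)]
    have h7 := h5 w hw
    rw [h6] at h7
    change ‖ntr (ev star Z w) - (if ev (fun g : G => g⁻¹) z w = 1 then τ 1 else 0)‖ ≤ ε at h7
    rw [hτ] at h7
    exact h7

/-- Finitely generated subgroups suffice. -/
theorem cov_of_fg (h : ∀ K : Subgroup G, K.FG → Cov (α.comp K.subtype) τ) : Cov α τ := by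
  classical
  intro ι hι z N ε hε
  let K : Subgroup G := Subgroup.closure (Set.range fun i => (z i).g)
  have hK : K.FG := ⟨(Set.finite_range fun i => (z i).g).toFinset, by rw [Set.Finite.coe_toFinset]⟩
  let y : ι → Cr (α.comp K.subtype) := fun i => ⟨(z i).x, ⟨(z i).g, Subgroup.subset_closure ⟨i, rfl⟩⟩⟩
  obtain ⟨κ, i1, i2, i3, Z, h4, h5⟩ := h K hK ι hι y N ε hε
  refine ⟨κ, i1, i2, i3, Z, h4, fun w hw hg => ?_⟩
  have h6 : ev Cr.st z w = ⟨(ev Cr.st y w).x, ((ev Cr.st y w).g : G)⟩ :=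
    ev_comap Cr.st Cr.st (fun s : Cr (α.comp K.subtype) => (⟨s.x, (s.g : G)⟩ : Cr α)) rfl (fun s t => rfl) (fun s => rfl) y w
  rw [h6] at hg ⊢
  exact h5 w hw (Subtype.ext hg)

/-- The trivial group. -/
theorem cov_unit (h : Emb star τ fun x : A => ‖x‖) (γ : PUnit →* (A ≃⋆ₐ[ℂ] A)) : Cov γ τ := by
  have hγ : ∀ (g : PUnit) (x : A), γ g x = x := fun g x => by
    have h1 : g = 1 := rfl
    rw [h1, map_one γ]
    rfl
  intro ι hι z N ε hε
  obtain ⟨κ, i1, i2, i3, Z, h4, h5⟩ := h ι hι (fun i => (z i).x) N ε hε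
  refine ⟨κ, i1, i2, i3, Z, h4, fun w hw _ => ?_⟩
  have h6 : ev star (fun i => (z i).x) w = (ev Cr.st z w).x :=
    ev_comap star Cr.st (fun s : Cr γ => s.x) rfl (fun s t => by rw [Cr.mul_x, hγ]) (fun s => by rw [Cr.st_x, hγ]) z w
  rw [← h6]
  exact h5 w hw

theorem cov_of_restrict (h1 : τ 1 = 1) (h01 : (1 : A) ≠ 0) (hZ : ∀ z : A, (∀ x, z * x = x * z) → ∃ c : ℂ, z = c • (1 : A))
    {H : Subgroup G} (ρ : H →* L) (hα : ∀ g x, τ (α g x) = τ x) (hH : Coamenable H)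
    (h : ∀ g : H, ∃ v ∈ unitary A, ∀ x, α g x = v * γ (ρ g) x * star v) (hγ : Cov γ τ) : Cov α τ := by
  choose v hv hv' using h
  exact cov_of_coamenable hα hH (cov_of_impl (v := v) hZ h01 ⟨hv, hv'⟩ h1 hγ)

end QWEP
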