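import Pool.Agent.Lib.MP_47effe_an.Ind

/-!
# Crossed products and microstates: induction from a co-amenable subgroup
-/

namespace QWEP

open Finset

variable {A G : Type} [CStarAlgebra A] [Group G] {α : G →* (A ≃⋆ₐ[ℂ] A)} {τ : A →ₗ[ℂ] ℂ} {H : Subgroup G}

open Classical in
theorem bad_card {ι : Type} (z : ι → Cr α) (F : Finset (G ⧸ H)) (E : Finset G) (δ : ℝ) (N : ℕ)
    (hE : ∀ w : List (ι × Bool), w.length ≤ N → (ev Cr.st z w).g ∈ E)
    (hF : ∀ g ∈ E, ((F.filter fun q => g • q ∉ F).card : ℝ) ≤ δ * F.card) (w : List (ι × Bool)) (hw : w.length ≤ N) :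
    ((F.filter fun q => ¬ Good z F w q).card : ℝ) ≤ w.length * (δ * F.card) := by
  induction w with
  | nil =>
    rw [Finset.filter_false_of_mem, card_empty]
    · simp
    · exact fun q _ h => h trivial
  | cons p w ih =>
    have h1 := ih ((Nat.le_succ _).trans hw)
    have h2 := hF _ (hE (p :: w) hw)
    have h3 : (F.filter fun q => ¬ Good z F (p :: w) q) ⊆ (F.filter fun q => ¬ Good z F w q) ∪
        F.filter fun q => (ev Cr.st z (p :: w)).g • q ∉ F := by
      intro q hq
      rw [mem_filter] at hq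
      rw [mem_union, mem_filter, mem_filter]
      by_cases h4 : Good z F w q
      · exact Or.inr ⟨hq.1, fun h5 => hq.2 ⟨h4, h5⟩⟩
      · exact Or.inl ⟨hq.1, h4⟩
    have h4 := (card_le_card h3).trans (card_union_le _ _)
    have h5 : ((F.filter fun q => ¬ Good z F (p :: w) q).card : ℝ) ≤ ((F.filter fun q => ¬ Good z F w q).card : ℝ) +
        ((F.filter fun q => (ev Cr.st z (p :: w)).g • q ∉ F).card : ℝ) := by exact_mod_cast h4
    rw [List.length_cons, Nat.cast_add, Nat.cast_one]
    linarith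

theorem cov_of_coamenable (hα : ∀ g x, τ (α g x) = τ x) (hH : Coamenable H) (h : Cov (α.comp H.subtype) τ) : Cov α τ := by
  classical
  intro ι hι z N ε hε
  obtain ⟨B, hB0, hB⟩ := exists_bound N fun w : List (ι × Bool) => τ (ev Cr.st z w).x
  have hfin := (List.finite_length_le (ι × Bool) N).image fun w => (ev Cr.st z w).g
  obtain ⟨F, hF1, hF2⟩ := hH hfin.toFinset (ε / (2 * (N + 1) * B)) (by positivity)
  obtain ⟨κ, i1, i2, i3, Y, h4, h5⟩ := h (ι × F) inferInstance (fam z F) N (ε / 2) (by positivity)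
  haveI : Nonempty F := ⟨⟨hF1.choose, hF1.choose_spec⟩⟩
  refine ⟨κ × F, inferInstance, inferInstance, inferInstance, blk z F Y, fun i => ?_, fun w hw hg => ?_⟩
  · refine blk_bd z F Y i fun q => ?_
    have h6 : ‖(fam z F (i, q)).x‖ = ‖(z i).x‖ := StarAlgEquiv.norm_map (α (sec ((z i).g • (q : G ⧸ H)))⁻¹) (z i).x
    rw [← h6]
    exact h4 (i, q)
  have hcard := bad_card z F hfin.toFinset (ε / (2 * (N + 1) * B)) N
    (fun w hw => hfin.mem_toFinset.2 ⟨w, hw, rfl⟩) hF2 w hw
  have hκ : (0 : ℝ) < Fintype.card κ := by exact_mod_cast Fintype.card_pos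
  have hFc : (0 : ℝ) < F.card := by exact_mod_cast hF1.card_pos
  have hκ' : (Fintype.card κ : ℂ) ≠ 0 := by exact_mod_cast hκ.ne'
  have hFc' : (F.card : ℂ) ≠ 0 := by exact_mod_cast hFc.ne'
  -- the blocks
  have hq : ∀ q : F, ‖(∑ a, ev star (blk z F Y) w (a, q) (a, q)) / Fintype.card κ - τ (ev Cr.st z w).x‖ ≤
      ε / 2 + if Good z F w q then 0 else B := by
    intro q
    by_cases h6 : Good z F w q
    · rw [if_pos h6, add_zero]
      obtain ⟨w', h7, h8, h9⟩ := (val_or z F Y w q).1 h6
      have h10 : ∀ a, ev star (blk z F Y) w (a, q) (a, q) = ev star Y w' a a := fun a =>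
        (h9 a q a).1 (by rw [hg, one_smul])
      have h11 : (ev Cr.st (fam z F) w').g = 1 := by
        rw [h8]
        refine Subtype.ext ?_
        change (sec ((ev Cr.st z w).g • (q : G ⧸ H)))⁻¹ * ((ev Cr.st z w).g * sec (q : G ⧸ H)) = 1
        rw [hg, one_smul, one_mul, inv_mul_cancel]
      have h12 : τ (ev Cr.st (fam z F) w').x = τ (ev Cr.st z w).x := by
        rw [h8]
        exact hα _ _
      have h13 := h5 w' (by rw [h7]; exact hw) h11
      rw [h12] at h13
      simp only [h10]
      exact h13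
    · rw [if_neg h6]
      have h7 := (val_or z F Y w q).2 h6
      simp only [h7, sum_const_zero, zero_div, zero_sub, norm_neg]
      have h8 := hB w hw
      linarith
  have h6 : ntr (ev star (blk z F Y) w) - τ (ev Cr.st z w).x =
      (∑ q : F, ((∑ a, ev star (blk z F Y) w (a, q) (a, q)) / Fintype.card κ - τ (ev Cr.st z w).x)) / F.card := by
    rw [sum_sub_distrib, sum_const, card_univ, Fintype.card_coe, nsmul_eq_mul, ← sum_div, ntr, Matrix.trace,
      Fintype.sum_prod_type, sum_comm, Fintype.card_prod, Fintype.card_coe, Nat.cast_mul]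
    simp only [Matrix.diag]
    field_simp
  rw [h6, norm_div, Complex.norm_natCast, div_le_iff₀ hFc]
  refine (norm_sum_le _ _).trans ((sum_le_sum fun q _ => hq q).trans ?_)
  have h7 : ∑ q : F, (ε / 2 + if Good z F w q then 0 else B) = ∑ q ∈ F, (ε / 2 + if Good z F w q then 0 else B) :=
    Finset.sum_coe_sort F fun q => ε / 2 + if Good z F w q then (0 : ℝ) else B
  have h8 : ∑ q ∈ F, (if Good z F w q then (0 : ℝ) else B) = (F.filter fun q => ¬ Good z F w q).card * B := by
    rw [← sum_filter_add_sum_filter_not F (fun q => Good z F w q)]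
    rw [sum_congr rfl fun q hq => if_pos (mem_filter.1 hq).2, sum_congr (s₁ := F.filter fun q => ¬ Good z F w q) rfl
      fun q hq => if_neg (mem_filter.1 hq).2, sum_const_zero, zero_add, sum_const, nsmul_eq_mul]
  rw [h7, sum_add_distrib, h8, sum_const, nsmul_eq_mul]
  have hN : (w.length : ℝ) ≤ N := by exact_mod_cast hw
  have h9 : ((F.filter fun q => ¬ Good z F w q).card : ℝ) * B ≤ ε / 2 * F.card := by
    calc ((F.filter fun q => ¬ Good z F w q).card : ℝ) * B ≤ (w.length * (ε / (2 * (N + 1) * B) * F.card)) * B :=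
          mul_le_mul_of_nonneg_right hcard hB0.le
      _ ≤ ((N + 1) * (ε / (2 * (N + 1) * B) * F.card)) * B := by
          refine mul_le_mul_of_nonneg_right (mul_le_mul_of_nonneg_right (by linarith) (by positivity)) hB0.le
      _ = ε / 2 * F.card := by field_simp
  linarith

end QWEP
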