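import Mathlib

/-!
# Crossed products and microstates: definitions
-/

namespace QWEP

/-- The value of a word in the letters `z i` and `st (z i)`. -/
def ev {S ι : Type} [Monoid S] (st : S → S) (z : ι → S) (w : List (ι × Bool)) : S :=
  (w.map fun p => if p.2 then st (z p.1) else z p.1).prod

/-- The normalized trace. -/
noncomputable def ntr {κ : Type} [Fintype κ] (Z : Matrix κ κ ℂ) : ℂ := Z.trace / Fintype.card κ

/-- The operator norm of `Z` is at most `|C|`. -/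
def Bd {κ : Type} [Fintype κ] (C : ℝ) (Z : Matrix κ κ ℂ) : Prop :=
  ∀ v : κ → ℂ, ∑ i, ‖(Z.mulVec v) i‖ ^ 2 ≤ C ^ 2 * ∑ i, ‖v i‖ ^ 2

/-- The microstates of `(S, st, t, b)`: for each finite family in `S` there are families of complex matrices `Z i`, of operator norms at most
`b (z i)`, whose *-moments of length at most `N` are within `ε` of those of the family. -/
def Emb {S : Type} [Monoid S] (st : S → S) (t : S → ℂ) (b : S → ℝ) : Prop :=
  ∀ (ι : Type) (_ : Finite ι) (z : ι → S) (N : ℕ) (ε : ℝ), 0 < ε →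
    ∃ (κ : Type) (_ : Fintype κ) (_ : DecidableEq κ) (_ : Nonempty κ) (Z : ι → Matrix κ κ ℂ),
      (∀ i, Bd (b (z i)) (Z i)) ∧ ∀ w : List (ι × Bool), w.length ≤ N → ‖ntr (ev star Z w) - t (ev st z w)‖ ≤ ε

open Classical in
/-- `G` is hyperlinear. -/
def Hyperlinear (G : Type) [Group G] : Prop := Emb (fun g : G => g⁻¹) (fun g => if g = 1 then 1 else 0) fun _ => 1

section Cr

variable {A G : Type} [CStarAlgebra A] [Group G]

/-- The elements `x u_g` of the crossed product of `A` by the action `α` of `G`. -/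
structure Cr (α : G →* (A ≃⋆ₐ[ℂ] A)) where
  /-- the element of `A` -/
  x : A
  /-- the element of `G` -/
  g : G

@[ext] theorem Cr.ext {α : G →* (A ≃⋆ₐ[ℂ] A)} {s t : Cr α} (h : s.x = t.x) (h' : s.g = t.g) : s = t := by
  cases s
  cases t
  cases h
  cases h'
  rfl

instance (α : G →* (A ≃⋆ₐ[ℂ] A)) : Monoid (Cr α) where
  mul s t := ⟨s.x * α s.g t.x, s.g * t.g⟩
  one := ⟨1, 1⟩
  mul_assoc s t u := by
    refine Cr.ext ?_ (mul_assoc _ _ _)
    change s.x * α s.g t.x * α (s.g * t.g) u.x = s.x * α s.g (t.x * α t.g u.x)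
    rw [map_mul (α s.g), map_mul α, StarAlgEquiv.mul_apply, mul_assoc]
  one_mul s := by
    refine Cr.ext ?_ (one_mul _)
    change 1 * α 1 s.x = s.x
    rw [map_one α, StarAlgEquiv.one_apply, one_mul]
  mul_one s := by
    refine Cr.ext ?_ (mul_one _)
    change s.x * α s.g 1 = s.x
    rw [map_one (α s.g), mul_one]

/-- `(x u_g)^* = α_g⁻¹(x^*) u_g⁻¹`. -/
def Cr.st {α : G →* (A ≃⋆ₐ[ℂ] A)} (s : Cr α) : Cr α := ⟨α s.g⁻¹ (star s.x), s.g⁻¹⟩

open Classical in
/-- The trace of the crossed product. -/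
noncomputable def ctr (α : G →* (A ≃⋆ₐ[ℂ] A)) (τ : A →ₗ[ℂ] ℂ) (s : Cr α) : ℂ := if s.g = 1 then τ s.x else 0

/-- The crossed product of `(A, τ)` by `α` embeds into `R^ω`. -/
def Embeddable (α : G →* (A ≃⋆ₐ[ℂ] A)) (τ : A →ₗ[ℂ] ℂ) : Prop := Emb Cr.st (ctr α τ) fun s => ‖s.x‖

/-- Covariant microstates: only the moments with `g = 1` are prescribed. -/
def Cov (α : G →* (A ≃⋆ₐ[ℂ] A)) (τ : A →ₗ[ℂ] ℂ) : Prop :=
  ∀ (ι : Type) (_ : Finite ι) (z : ι → Cr α) (N : ℕ) (ε : ℝ), 0 < ε →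
    ∃ (κ : Type) (_ : Fintype κ) (_ : DecidableEq κ) (_ : Nonempty κ) (Z : ι → Matrix κ κ ℂ),
      (∀ i, Bd ‖(z i).x‖ (Z i)) ∧ ∀ w : List (ι × Bool), w.length ≤ N → (ev Cr.st z w).g = 1 →
        ‖ntr (ev star Z w) - τ (ev Cr.st z w).x‖ ≤ ε

end Cr

open Classical in
/-- `H` is co-amenable in `G`: there are Følner sets in `G ⧸ H`. -/
def Coamenable {G : Type} [Group G] (H : Subgroup G) : Prop :=
  ∀ (E : Finset G) (ε : ℝ), 0 < ε → ∃ F : Finset (G ⧸ H), F.Nonempty ∧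
    ∀ g ∈ E, ((F.filter fun q => g • q ∉ F).card : ℝ) ≤ ε * F.card

section basic

variable {S ι : Type} [Monoid S] (st : S → S) (z : ι → S)

theorem ev_nil : ev st z [] = 1 := rfl

theorem ev_cons (p : ι × Bool) (w : List (ι × Bool)) :
    ev st z (p :: w) = (if p.2 then st (z p.1) else z p.1) * ev st z w := by
  rw [ev, List.map_cons, List.prod_cons]
  rfl

end basic

section cr

variable {A G : Type} [CStarAlgebra A] [Group G] (α : G →* (A ≃⋆ₐ[ℂ] A))

theorem Cr.mul_x (s t : Cr α) : (s * t).x = s.x * α s.g t.x := rfl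

theorem Cr.mul_g (s t : Cr α) : (s * t).g = s.g * t.g := rfl

theorem Cr.one_x : (1 : Cr α).x = 1 := rfl

theorem Cr.one_g : (1 : Cr α).g = 1 := rfl

theorem Cr.st_x (s : Cr α) : s.st.x = α s.g⁻¹ (star s.x) := rfl

theorem Cr.st_g (s : Cr α) : s.st.g = s.g⁻¹ := rfl

/-- the group parts of words -/
theorem ev_g {ι : Type} (z : ι → Cr α) (w : List (ι × Bool)) :
    (ev Cr.st z w).g = ev (fun g : G => g⁻¹) (fun i => (z i).g) w := by
  induction w with
  | nil => rfl
  | cons p w ih =>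
    rw [ev_cons, ev_cons, Cr.mul_g, ih]
    congr 1
    split_ifs
    · rfl
    · rfl

end cr

end QWEP
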