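import Pool.Agent.Lib.MP_47effe_an.Mat

/-!
# Crossed products and microstates: co-amenable subgroups
-/

namespace QWEP

open Finset

variable {A G : Type} [CStarAlgebra A] [Group G] {α : G →* (A ≃⋆ₐ[ℂ] A)} {τ : A →ₗ[ℂ] ℂ} {H : Subgroup G}

/-- a section of `G → G ⧸ H` -/
noncomputable def sec (q : G ⧸ H) : G := Quotient.out q

theorem mk_sec (q : G ⧸ H) : ((sec q : G) : G ⧸ H) = q := Quotient.out_eq' q

theorem kk_mem (g : G) (q : G ⧸ H) : (sec (g • q))⁻¹ * (g * sec q) ∈ H := by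
  rw [← QuotientGroup.eq, mk_sec]
  conv_lhs => rw [← mk_sec q]
  rfl

/-- the cocycle of the section -/
noncomputable def kk (g : G) (q : G ⧸ H) : H := ⟨(sec (g • q))⁻¹ * (g * sec q), kk_mem g q⟩

/-- the restriction to `H` at the place `q` -/
noncomputable def res (α : G →* (A ≃⋆ₐ[ℂ] A)) (H : Subgroup G) (s : Cr α) (q : G ⧸ H) : Cr (α.comp H.subtype) :=
  ⟨α (sec (s.g • q))⁻¹ s.x, kk s.g q⟩

theorem res_one (q : G ⧸ H) : res α H 1 q = 1 := by
  refine Cr.ext ?_ ?_
  · exact map_one (α (sec ((1 : G) • q))⁻¹)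
  · refine Subtype.ext ?_
    change (sec ((1 : G) • q))⁻¹ * (1 * sec q) = 1
    rw [one_smul, one_mul, inv_mul_cancel]

theorem res_mul (s s' : Cr α) (q : G ⧸ H) : res α H (s * s') q = res α H s (s'.g • q) * res α H s' q := by
  have h1 : (s.g * s'.g) • q = s.g • s'.g • q := mul_smul _ _ _
  refine Cr.ext ?_ ?_
  · change α (sec ((s.g * s'.g) • q))⁻¹ (s.x * α s.g s'.x) = α (sec (s.g • s'.g • q))⁻¹ s.x *
      α ((sec (s.g • s'.g • q))⁻¹ * (s.g * sec (s'.g • q))) (α (sec (s'.g • q))⁻¹ s'.x)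
    rw [h1, map_mul (α _), ← StarAlgEquiv.mul_apply, ← map_mul α, ← StarAlgEquiv.mul_apply, ← map_mul α]
    congr 3
    group
  · refine Subtype.ext ?_
    change (sec ((s.g * s'.g) • q))⁻¹ * (s.g * s'.g * sec q) = (sec (s.g • s'.g • q))⁻¹ * (s.g * sec (s'.g • q)) *
      ((sec (s'.g • q))⁻¹ * (s'.g * sec q))
    rw [h1]
    group

theorem res_st (s : Cr α) (q : G ⧸ H) : res α H s.st (s.g • q) = (res α H s q).st := by
  have h1 : s.g⁻¹ • s.g • q = q := inv_smul_smul _ _
  refine Cr.ext ?_ ?_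
  · change α (sec (s.g⁻¹ • s.g • q))⁻¹ (α s.g⁻¹ (star s.x)) =
      α ((sec (s.g • q))⁻¹ * (s.g * sec q))⁻¹ (star (α (sec (s.g • q))⁻¹ s.x))
    rw [h1, ← map_star, ← StarAlgEquiv.mul_apply, ← map_mul α, ← StarAlgEquiv.mul_apply, ← map_mul α]
    congr 2
    group
  · refine Subtype.ext ?_
    change (sec (s.g⁻¹ • s.g • q))⁻¹ * (s.g⁻¹ * sec (s.g • q)) = ((sec (s.g • q))⁻¹ * (s.g * sec q))⁻¹
    rw [h1]
    group

section blocks

variable {ι κ : Type} [Fintype κ] (z : ι → Cr α) (F : Finset (G ⧸ H)) (Y : ι × F → Matrix κ κ ℂ)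

open Classical in
/-- the block matrices -/
noncomputable def blk (i : ι) : Matrix (κ × F) (κ × F) ℂ := fun p r =>
  if (p.2 : G ⧸ H) = (z i).g • (r.2 : G ⧸ H) then Y (i, r.2) p.1 r.1 else 0

theorem blk_bd {C : ℝ} (i : ι) (hY : ∀ q, Bd C (Y (i, q))) : Bd C (blk z F Y i) := by
  classical
  intro v
  have h1 : ∀ q' : F, ∑ a, ‖(blk z F Y i).mulVec v (a, q')‖ ^ 2 ≤
      ∑ q : F, if (q' : G ⧸ H) = (z i).g • (q : G ⧸ H) then C ^ 2 * ∑ b, ‖v (b, q)‖ ^ 2 else 0 := by
    intro q'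
    by_cases h : ∃ q : F, (q' : G ⧸ H) = (z i).g • (q : G ⧸ H)
    · obtain ⟨q, hq⟩ := h
      have h2 : ∀ a, (blk z F Y i).mulVec v (a, q') = (Y (i, q)).mulVec (fun b => v (b, q)) a := by
        intro a
        simp only [Matrix.mulVec, dotProduct, blk, Fintype.sum_prod_type]
        refine sum_congr rfl fun b _ => ?_
        rw [sum_eq_single q]
        · rw [if_pos hq]
        · intro q2 _ hne
          rw [if_neg, zero_mul]
          intro h3
          exact hne (Subtype.ext (MulAction.injective (z i).g (h3.symm.trans hq)))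
        · exact fun h3 => absurd (mem_univ _) h3
      simp only [h2]
      refine (hY q _).trans ?_
      refine le_trans (le_of_eq ?_) (single_le_sum (f := fun q : F =>
        if (q' : G ⧸ H) = (z i).g • (q : G ⧸ H) then C ^ 2 * ∑ b, ‖v (b, q)‖ ^ 2 else 0) (fun q2 _ => ?_) (mem_univ q))
      · exact (if_pos hq).symm
      · split_ifs
        · positivity
        · exact le_rfl
    · have h2 : ∀ a, (blk z F Y i).mulVec v (a, q') = 0 := by
        intro a
        simp only [Matrix.mulVec, dotProduct, blk, Fintype.sum_prod_type]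
        refine sum_eq_zero fun b _ => sum_eq_zero fun q2 _ => ?_
        rw [if_neg fun h3 => h ⟨q2, h3⟩, zero_mul]
      simp only [h2, norm_zero]
      rw [zero_pow two_ne_zero, sum_const_zero]
      refine sum_nonneg fun q2 _ => ?_
      split_ifs
      · positivity
      · exact le_rfl
  calc ∑ p, ‖(blk z F Y i).mulVec v p‖ ^ 2 = ∑ q' : F, ∑ a, ‖(blk z F Y i).mulVec v (a, q')‖ ^ 2 := by
        rw [Fintype.sum_prod_type, sum_comm]
    _ ≤ ∑ q' : F, ∑ q : F, if (q' : G ⧸ H) = (z i).g • (q : G ⧸ H) then C ^ 2 * ∑ b, ‖v (b, q)‖ ^ 2 else 0 :=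
        sum_le_sum fun q' _ => h1 q'
    _ = ∑ q : F, ∑ q' : F, if (q' : G ⧸ H) = (z i).g • (q : G ⧸ H) then C ^ 2 * ∑ b, ‖v (b, q)‖ ^ 2 else 0 := sum_comm
    _ ≤ ∑ q : F, C ^ 2 * ∑ b, ‖v (b, q)‖ ^ 2 := by
        refine sum_le_sum fun q _ => ?_
        by_cases h : ∃ q' : F, (q' : G ⧸ H) = (z i).g • (q : G ⧸ H)
        · obtain ⟨q', hq'⟩ := h
          rw [sum_eq_single q']
          · rw [if_pos hq']
          · intro q2 _ hne
            rw [if_neg fun h3 => hne (Subtype.ext (h3.trans hq'.symm))]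
          · exact fun h3 => absurd (mem_univ _) h3
        · rw [sum_eq_zero fun q' _ => if_neg fun h3 => h ⟨q', h3⟩]
          positivity
    _ = C ^ 2 * ∑ p, ‖v p‖ ^ 2 := by
        rw [← mul_sum, Fintype.sum_prod_type, sum_comm]

/-- the path of `q` under the suffixes of the word stays in `F` -/
def Good : List (ι × Bool) → G ⧸ H → Prop
  | [], _ => True
  | p :: w, q => Good w q ∧ (ev Cr.st z (p :: w)).g • q ∈ F

/-- the family at the places of `F` -/
noncomputable def fam : ι × F → Cr (α.comp H.subtype) := fun p => res α H (z p.1) p.2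

variable [DecidableEq κ] [DecidableEq F]

/-- the value at the block column `q` -/
def Val (w : List (ι × Bool)) (q : F) : Prop :=
  ∃ w' : List ((ι × F) × Bool), w'.length = w.length ∧ ev Cr.st (fam z F) w' = res α H (ev Cr.st z w) q ∧
    ∀ a (q' : F) b, ((q' : G ⧸ H) = (ev Cr.st z w).g • (q : G ⧸ H) → ev star (blk z F Y) w (a, q') (b, q) = ev star Y w' a b) ∧
      ((q' : G ⧸ H) ≠ (ev Cr.st z w).g • (q : G ⧸ H) → ev star (blk z F Y) w (a, q') (b, q) = 0)

theorem good_mem (w : List (ι × Bool)) (q : F) (h : Good z F w q) : (ev Cr.st z w).g • (q : G ⧸ H) ∈ F := by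
  cases w with
  | nil =>
    change (1 : G) • (q : G ⧸ H) ∈ F
    rw [one_smul]
    exact q.2
  | cons p w => exact h.2

theorem val_nil (q : F) : Val z F Y [] q := by
  refine ⟨[], rfl, (res_one (q : G ⧸ H)).symm, fun a q' b => ⟨fun h => ?_, fun h => ?_⟩⟩
  · have h1 : q' = q := by
      refine Subtype.ext (h.trans ?_)
      exact one_smul G _
    subst h1
    change (1 : Matrix (κ × F) (κ × F) ℂ) (a, q') (b, q') = (1 : Matrix κ κ ℂ) a b
    rw [Matrix.one_apply, Matrix.one_apply]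
    by_cases h2 : a = b
    · rw [if_pos h2, if_pos (by rw [h2])]
    · rw [if_neg h2, if_neg fun h3 => h2 (congrArg Prod.fst h3)]
  · change (1 : Matrix (κ × F) (κ × F) ℂ) (a, q') (b, q) = 0
    rw [Matrix.one_apply, if_neg]
    intro h2
    refine h ?_
    have h3 : q' = q := congrArg Prod.snd h2
    rw [h3]
    exact (one_smul G (q : G ⧸ H)).symm

theorem mul_entry (L X : Matrix (κ × F) (κ × F) ℂ) (q q1 : F) (b : κ) (hX : ∀ c q2, q2 ≠ q1 → X (c, q2) (b, q) = 0)
    (a : κ) (q' : F) : (L * X) (a, q') (b, q) = ∑ c, L (a, q') (c, q1) * X (c, q1) (b, q) := by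
  rw [Matrix.mul_apply, Fintype.sum_prod_type]
  refine sum_congr rfl fun c _ => ?_
  rw [sum_eq_single q1]
  · intro q2 _ hne
    rw [hX c q2 hne, mul_zero]
  · exact fun h => absurd (mem_univ _) h

theorem val_cons (p : ι × Bool) (w : List (ι × Bool)) (q : F) (h : Val z F Y w q) (h1 : (ev Cr.st z w).g • (q : G ⧸ H) ∈ F)
    (h2 : (ev Cr.st z (p :: w)).g • (q : G ⧸ H) ∈ F) : Val z F Y (p :: w) q := by
  obtain ⟨w', h3, h4, h5⟩ := h
  have hX : ∀ b c (q2 : F), q2 ≠ ⟨_, h1⟩ → ev star (blk z F Y) w (c, q2) (b, q) = 0 := fun b c q2 hne =>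
    (h5 c q2 b).2 fun h6 => hne (Subtype.ext h6)
  have hX' : ∀ b c, ev star (blk z F Y) w (c, ⟨_, h1⟩) (b, q) = ev star Y w' c b := fun b c => (h5 c ⟨_, h1⟩ b).1 rfl
  obtain ⟨i, t⟩ := p
  cases t with
  | false =>
    have h6 : (ev Cr.st z ((i, false) :: w)) = z i * ev Cr.st z w := ev_cons _ _ _ _
    have h7 : (ev Cr.st z ((i, false) :: w)).g • (q : G ⧸ H) = (z i).g • (ev Cr.st z w).g • (q : G ⧸ H) := by
      rw [h6, Cr.mul_g, mul_smul]
    refine ⟨((i, ⟨_, h1⟩), false) :: w', by rw [List.length_cons, List.length_cons, h3], ?_, fun a q' b => ?_⟩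
    · rw [ev_cons, h6, res_mul, h4]
      rfl
    · have h8 : ev star (blk z F Y) ((i, false) :: w) (a, q') (b, q) =
          ∑ c, blk z F Y i (a, q') (c, ⟨_, h1⟩) * ev star Y w' c b := by
        rw [ev_cons]
        refine (mul_entry F _ _ q ⟨_, h1⟩ b (hX b) a q').trans (sum_congr rfl fun c _ => ?_)
        rw [hX']
        rfl
      refine ⟨fun h9 => ?_, fun h9 => ?_⟩
      · rw [h8, ev_cons]
        change _ = (Y (i, ⟨_, h1⟩) * ev star Y w') a b
        rw [Matrix.mul_apply]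
        refine sum_congr rfl fun c _ => ?_
        rw [blk, if_pos (h9.trans h7)]
      · rw [h8]
        refine sum_eq_zero fun c _ => ?_
        rw [blk, if_neg fun h10 => h9 (h10.trans h7.symm), zero_mul]
  | true =>
    have h6 : (ev Cr.st z ((i, true) :: w)) = (z i).st * ev Cr.st z w := ev_cons _ _ _ _
    have h7 : (ev Cr.st z ((i, true) :: w)).g • (q : G ⧸ H) = (z i).g⁻¹ • (ev Cr.st z w).g • (q : G ⧸ H) := by
      rw [h6, Cr.mul_g, mul_smul]
      rfl
    refine ⟨((i, ⟨_, h2⟩), true) :: w', by rw [List.length_cons, List.length_cons, h3], ?_, fun a q' b => ?_⟩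
    · have h8 : ev Cr.st (fam z F) (((i, ⟨_, h2⟩), true) :: w') =
          (res α H (z i) ((ev Cr.st z ((i, true) :: w)).g • (q : G ⧸ H))).st * ev Cr.st (fam z F) w' := ev_cons _ _ _ _
      rw [h8, h4, ← res_st, h7, smul_inv_smul, h6, res_mul]
    · have h8 : ev star (blk z F Y) ((i, true) :: w) (a, q') (b, q) =
          ∑ c, star (blk z F Y i (c, ⟨_, h1⟩) (a, q')) * ev star Y w' c b := by
        rw [ev_cons]
        refine (mul_entry F _ _ q ⟨_, h1⟩ b (hX b) a q').trans (sum_congr rfl fun c _ => ?_)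
        rw [hX']
        rfl
      refine ⟨fun h9 => ?_, fun h9 => ?_⟩
      · have h10 : q' = ⟨_, h2⟩ := Subtype.ext h9
        rw [h8, ev_cons]
        change _ = (star (Y (i, ⟨_, h2⟩)) * ev star Y w') a b
        rw [Matrix.mul_apply]
        refine sum_congr rfl fun c _ => ?_
        rw [blk, if_pos (by rw [h9, h7, smul_inv_smul]), Matrix.star_apply, h10]
      · rw [h8]
        refine sum_eq_zero fun c _ => ?_
        rw [blk, if_neg, star_zero, zero_mul]
        intro h10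
        refine h9 ?_
        rw [h7]
        have h11 : (ev Cr.st z w).g • (q : G ⧸ H) = (z i).g • (q' : G ⧸ H) := h10
        rw [h11, inv_smul_smul]

theorem zero_cons (p : ι × Bool) (w : List (ι × Bool)) (q : F)
    (h : ∀ a q' b, ev star (blk z F Y) w (a, q') (b, q) = 0) (a : κ) (q' : F) (b : κ) :
    ev star (blk z F Y) (p :: w) (a, q') (b, q) = 0 := by
  rw [ev_cons, Matrix.mul_apply]
  refine sum_eq_zero fun c _ => ?_
  rw [h c.1 c.2 b, mul_zero]

theorem zero_cons' (p : ι × Bool) (w : List (ι × Bool)) (q : F) (h : Val z F Y w q) (h1 : (ev Cr.st z w).g • (q : G ⧸ H) ∈ F)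
    (h2 : (ev Cr.st z (p :: w)).g • (q : G ⧸ H) ∉ F) (a : κ) (q' : F) (b : κ) :
    ev star (blk z F Y) (p :: w) (a, q') (b, q) = 0 := by
  obtain ⟨w', h3, h4, h5⟩ := h
  have hX : ∀ b c (q2 : F), q2 ≠ ⟨_, h1⟩ → ev star (blk z F Y) w (c, q2) (b, q) = 0 := fun b c q2 hne =>
    (h5 c q2 b).2 fun h6 => hne (Subtype.ext h6)
  rw [ev_cons]
  refine (mul_entry F _ _ q ⟨_, h1⟩ b (hX b) a q').trans (sum_eq_zero fun c _ => ?_)
  have h6 : (ev Cr.st z (p :: w)).g • (q : G ⧸ H) = (if p.2 then (z p.1).st else z p.1).g • (ev Cr.st z w).g • (q : G ⧸ H) := by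
    rw [ev_cons, Cr.mul_g, mul_smul]
  obtain ⟨i, t⟩ := p
  cases t with
  | false =>
    change blk z F Y i (a, q') (c, ⟨_, h1⟩) * _ = 0
    rw [blk, if_neg, zero_mul]
    intro h7
    have h8 : (q' : G ⧸ H) = (z i).g • (ev Cr.st z w).g • (q : G ⧸ H) := h7
    refine h2 ?_
    rw [h6]
    change (z i).g • (ev Cr.st z w).g • (q : G ⧸ H) ∈ F
    rw [← h8]
    exact q'.2
  | true =>
    change star (blk z F Y i (c, ⟨_, h1⟩) (a, q')) * _ = 0
    rw [blk, if_neg, star_zero, zero_mul]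
    intro h7
    have h8 : (ev Cr.st z w).g • (q : G ⧸ H) = (z i).g • (q' : G ⧸ H) := h7
    refine h2 ?_
    rw [h6]
    change (z i).g⁻¹ • (ev Cr.st z w).g • (q : G ⧸ H) ∈ F
    rw [h8, inv_smul_smul]
    exact q'.2

theorem val_or (w : List (ι × Bool)) (q : F) : (Good z F w q → Val z F Y w q) ∧
    (¬ Good z F w q → ∀ a q' b, ev star (blk z F Y) w (a, q') (b, q) = 0) := by
  induction w with
  | nil => exact ⟨fun _ => val_nil z F Y q, fun h => absurd trivial h⟩
  | cons p w ih =>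
    refine ⟨fun h => val_cons z F Y p w q (ih.1 h.1) (good_mem z F w q h.1) h.2, fun h a q' b => ?_⟩
    by_cases h1 : Good z F w q
    · exact zero_cons' z F Y p w q (ih.1 h1) (good_mem z F w q h1) (fun h2 => h ⟨h1, h2⟩) a q' b
    · exact zero_cons z F Y p w q (ih.2 h1) a q' b

end blocks

end QWEP
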