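import Pool.Agent.Lib.MP_47effe_an.Wt

/-!
# Crossed products and microstates: weakly compact actions
-/

namespace QWEP

open Finset
open scoped InnerProductSpace

variable {A G : Type} [CStarAlgebra A] [Group G]

/-- A covariant representation of `A` and `G` on `V`. -/
structure CovRep (α : G →* (A ≃⋆ₐ[ℂ] A)) (V : Type) [NormedAddCommGroup V] [InnerProductSpace ℂ V] [CompleteSpace V] where
  /-- the representation of `A` -/
  π : A →⋆ₐ[ℂ] (V →L[ℂ] V)
  /-- the representation of `G` -/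
  U : G →* unitary (V →L[ℂ] V)
  /-- the covariance -/
  cov : ∀ g x, π (α g x) = U g * π x * star (U g : V →L[ℂ] V)

/-- The operator `π(x) U_g`. -/
noncomputable def CovRep.op {α : G →* (A ≃⋆ₐ[ℂ] A)} {V : Type} [NormedAddCommGroup V] [InnerProductSpace ℂ V] [CompleteSpace V]
    (P : CovRep α V) (x : A) (g : G) : V →L[ℂ] V := P.π x * (P.U g : V →L[ℂ] V)

/-- A unit vector `∑ i, s i • (v i ⊗ conj (w i))` of `V ⊗ conj V`. -/
structure Vec (V : Type) [NormedAddCommGroup V] [InnerProductSpace ℂ V] where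
  /-- the number of terms -/
  d : ℕ
  /-- the first factors -/
  v : Fin d → V
  /-- the second factors -/
  w : Fin d → V
  /-- the coefficients -/
  s : Fin d → ℝ
  /-- `v` is orthonormal -/
  hv : Orthonormal ℂ v
  /-- `w` is orthonormal -/
  hw : Orthonormal ℂ w
  /-- the norm is one -/
  one : ∑ i, s i ^ 2 = 1

/-- The inner product of `x` and `(S ⊗ conj T) x`. -/
noncomputable def Vec.coef {V : Type} [NormedAddCommGroup V] [InnerProductSpace ℂ V] (x : Vec V) (S T : V →L[ℂ] V) : ℂ :=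
  ∑ i, ∑ j, ((x.s i * x.s j : ℝ) : ℂ) * (⟪x.v i, S (x.v j)⟫_ℂ * ⟪T (x.w j), x.w i⟫_ℂ)

/-- `α` is weakly compact with respect to `τ`, on some Hilbert spaces. -/
def WeaklyCompact (α : G →* (A ≃⋆ₐ[ℂ] A)) (τ : A →ₗ[ℂ] ℂ) : Prop :=
  ∀ (F : Finset (unitary A)) (E : Finset G) (ε : ℝ), 0 < ε →
    ∃ (V : Type) (_ : NormedAddCommGroup V) (_ : InnerProductSpace ℂ V) (_ : CompleteSpace V) (P : CovRep α V) (x : Vec V),
      ∀ u ∈ F, ‖x.coef (P.π u) 1 - τ u‖ ≤ ε ∧ ∀ g ∈ E, 1 - ε ≤ (x.coef (P.op u g) (P.op u g)).re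

theorem cov_of_weaklyCompact {α : G →* (A ≃⋆ₐ[ℂ] A)} {τ : A →ₗ[ℂ] ℂ} (h : WeaklyCompact α τ) : Cov α τ := by
  classical
  refine cov_of_vec fun F E ε hε => ?_
  obtain ⟨V, _, _, _, P, x, h1⟩ := h F E ε hε
  refine ⟨V, inferInstance, inferInstance, inferInstance, P.π, P.U, x.d, x.v, x.w, x.s, P.cov, x.hv, x.hw, x.one,
    fun u hu g hg => ?_, fun u hu => ?_⟩
  · have h2 := (h1 u hu).2 g hg
    rw [Vec.coef, Complex.re_sum] at h2
    simp only [Complex.re_sum, Complex.re_ofReal_mul] at h2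
    exact h2
  · have h2 := (h1 u hu).1
    have h3 : x.coef (P.π u) 1 = ∑ i, (x.s i : ℂ) ^ 2 * ⟪x.v i, P.π u (x.v i)⟫_ℂ := by
      rw [Vec.coef]
      refine sum_congr rfl fun i _ => ?_
      rw [sum_eq_single i]
      · have h4 : ⟪x.w i, x.w i⟫_ℂ = 1 := by
          have h5 := orthonormal_iff_ite.1 x.hw i i
          rwa [if_pos rfl] at h5
        rw [one_apply_eq_self, h4, mul_one, Complex.ofReal_mul, sq]
      · intro j _ hj
        have h5 := orthonormal_iff_ite.1 x.hw j i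
        rw [if_neg hj] at h5
        rw [one_apply_eq_self, h5, mul_zero, mul_zero]
      · exact fun h4 => absurd (mem_univ i) h4
    rwa [h3] at h2

end QWEP
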