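import Pool.Agent.Lib.MP_47effe_an.Defs

/-!
# Crossed products and microstates: tensor products of matrices
-/

namespace QWEP

open Finset

variable {κ κ' : Type} [Fintype κ] [Fintype κ']

/-- `X ⊗ conj Y` -/
def kc (X : Matrix κ κ ℂ) (Y : Matrix κ' κ' ℂ) : Matrix (κ × κ') (κ × κ') ℂ :=
  fun p q => X p.1 q.1 * star (Y p.2 q.2)

theorem kc_mul (X X' : Matrix κ κ ℂ) (Y Y' : Matrix κ' κ' ℂ) : kc (X * X') (Y * Y') = kc X Y * kc X' Y' := by
  ext p q
  simp only [kc, Matrix.mul_apply, Fintype.sum_prod_type, star_sum, star_mul']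
  rw [Finset.sum_mul_sum]
  refine sum_congr rfl fun a _ => sum_congr rfl fun b _ => ?_
  ring

theorem kc_star (X : Matrix κ κ ℂ) (Y : Matrix κ' κ' ℂ) : star (kc X Y) = kc (star X) (star Y) := by
  ext p q
  simp only [kc, Matrix.star_apply, star_mul', star_star]

theorem kc_one [DecidableEq κ] [DecidableEq κ'] : kc (1 : Matrix κ κ ℂ) (1 : Matrix κ' κ' ℂ) = 1 := by
  ext p q
  simp only [kc, Matrix.one_apply]
  by_cases h1 : p.1 = q.1
  · by_cases h2 : p.2 = q.2
    · rw [if_pos h1, if_pos h2, if_pos (Prod.ext h1 h2), star_one, mul_one]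
    · rw [if_neg h2, star_zero, mul_zero, if_neg (fun h : p = q => h2 (congrArg Prod.snd h))]
  · rw [if_neg h1, zero_mul, if_neg (fun h : p = q => h1 (congrArg Prod.fst h))]

theorem kc_ntr (X : Matrix κ κ ℂ) (Y : Matrix κ' κ' ℂ) : ntr (kc X Y) = ntr X * star (ntr Y) := by
  simp only [ntr, Matrix.trace, Matrix.diag, kc, Fintype.sum_prod_type, Fintype.card_prod, Nat.cast_mul]
  rw [← Finset.sum_mul_sum, ← star_sum, star_div₀, mul_div_mul_comm]
  congr 2
  simp

theorem kc_ev [DecidableEq κ] [DecidableEq κ'] {ι : Type} (X : ι → Matrix κ κ ℂ) (Y : ι → Matrix κ' κ' ℂ) (w : List (ι × Bool)) :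
    ev star (fun i => kc (X i) (Y i)) w = kc (ev star X w) (ev star Y w) := by
  induction w with
  | nil => exact kc_one.symm
  | cons p w ih =>
    rw [ev_cons, ev_cons, ev_cons, ih]
    split_ifs
    · rw [kc_mul, kc_star]
    · rw [kc_mul]

theorem kc_bd {C C' : ℝ} {X : Matrix κ κ ℂ} {Y : Matrix κ' κ' ℂ} (hX : Bd C X) (hY : Bd C' Y) : Bd (C * C') (kc X Y) := by
  intro v
  have h1 : ∀ a b, (kc X Y).mulVec v (a, b) = X.mulVec (fun c => star (Y.mulVec (fun d => star (v (c, d))) b)) a := by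
    intro a b
    simp only [Matrix.mulVec, dotProduct, kc, Fintype.sum_prod_type, star_sum, star_mul', star_star, mul_sum]
    refine sum_congr rfl fun c _ => sum_congr rfl fun d _ => ?_
    ring
  calc ∑ i, ‖(kc X Y).mulVec v i‖ ^ 2
      = ∑ b, ∑ a, ‖X.mulVec (fun c => star (Y.mulVec (fun d => star (v (c, d))) b)) a‖ ^ 2 := by
        rw [Fintype.sum_prod_type, sum_comm]
        simp only [h1]
    _ ≤ ∑ b, C ^ 2 * ∑ c, ‖star (Y.mulVec (fun d => star (v (c, d))) b)‖ ^ 2 := sum_le_sum fun b _ => hX _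
    _ = C ^ 2 * ∑ c, ∑ b, ‖Y.mulVec (fun d => star (v (c, d))) b‖ ^ 2 := by
        rw [← mul_sum, sum_comm]
        simp only [norm_star]
    _ ≤ C ^ 2 * ∑ c, C' ^ 2 * ∑ d, ‖star (v (c, d))‖ ^ 2 :=
        mul_le_mul_of_nonneg_left (sum_le_sum fun c _ => hY _) (sq_nonneg C)
    _ = (C * C') ^ 2 * ∑ i, ‖v i‖ ^ 2 := by
        rw [← mul_sum, Fintype.sum_prod_type, mul_pow, mul_assoc]
        simp only [norm_star]

theorem bd_mono {C C' : ℝ} {X : Matrix κ κ ℂ} (hX : Bd C X) (h : |C| ≤ |C'|) : Bd C' X := fun v =>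
  (hX v).trans (mul_le_mul_of_nonneg_right (sq_le_sq.2 h) (sum_nonneg fun _ _ => sq_nonneg _))

/-- The values of finitely many matrices at the words of bounded length are bounded. -/
theorem exists_bound {ι : Type} [Finite ι] (N : ℕ) (f : List (ι × Bool) → ℂ) :
    ∃ B : ℝ, 0 < B ∧ ∀ w, w.length ≤ N → ‖f w‖ ≤ B := by
  obtain ⟨B, hB⟩ := ((List.finite_length_le (ι × Bool) N).image fun w => ‖f w‖).bddAbove
  refine ⟨max B 1, lt_max_of_lt_right one_pos, fun w hw => (hB ⟨w, hw, rfl⟩).trans (le_max_left B 1)⟩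

end QWEP
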