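import Pool.Agent.Lib.MP_47effe_an.Ind

/-!
# Crossed products and microstates: induction, the words that occur
-/

namespace QWEP

open Finset

variable {A G : Type} [CStarAlgebra A] [Group G] {α : G →* (A ≃⋆ₐ[ℂ] A)} {τ : A →ₗ[ℂ] ℂ} {H : Subgroup G}

section blocks

variable {ι κ : Type} [Fintype κ] (z : ι → Cr α) (F : Finset (G ⧸ H)) (Y : ι × F → Matrix κ κ ℂ)

/-- All suffixes of the word `w'` come from words of the same lengths in the family `z`. -/
def Occ (w' : List ((ι × F) × Bool)) : Prop := ∀ u, u <:+ w' → ∃ (w : List (ι × Bool)) (q : F), w.length = u.length ∧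
  ev Cr.st (fam z F) u = res α H (ev Cr.st z w) q

variable {z F}

theorem occ_cons {p : (ι × F) × Bool} {w' : List ((ι × F) × Bool)} (h : Occ z F w') (w : List (ι × Bool)) (q : F)
    (h1 : w.length = (p :: w').length) (h2 : ev Cr.st (fam z F) (p :: w') = res α H (ev Cr.st z w) q) : Occ z F (p :: w') := by
  intro u hu
  rcases List.suffix_cons_iff.1 hu with rfl | hu
  · exact ⟨w, q, h1, h2⟩
  · exact h u hu

variable (z F)

variable [DecidableEq κ] [DecidableEq F]

/-- the value at the block column `q` -/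
def Val2 (w : List (ι × Bool)) (q : F) : Prop :=
  ∃ w' : List ((ι × F) × Bool), w'.length = w.length ∧ ev Cr.st (fam z F) w' = res α H (ev Cr.st z w) q ∧ Occ z F w' ∧
    ∀ a (q' : F) b, ((q' : G ⧸ H) = (ev Cr.st z w).g • (q : G ⧸ H) → ev star (blk z F Y) w (a, q') (b, q) = ev star Y w' a b) ∧
      ((q' : G ⧸ H) ≠ (ev Cr.st z w).g • (q : G ⧸ H) → ev star (blk z F Y) w (a, q') (b, q) = 0)

theorem Val2.val {w : List (ι × Bool)} {q : F} (h : Val2 z F Y w q) : Val z F Y w q := by
  obtain ⟨w', h1, h2, -, h3⟩ := h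
  exact ⟨w', h1, h2, h3⟩

theorem val2_nil (q : F) : Val2 z F Y [] q := by
  refine ⟨[], rfl, (res_one (q : G ⧸ H)).symm, fun u hu => ⟨[], q, ?_, ?_⟩, fun a q' b => ⟨fun h => ?_, fun h => ?_⟩⟩
  · rw [List.suffix_nil.1 hu]
    rfl
  · rw [List.suffix_nil.1 hu]
    exact (res_one (q : G ⧸ H)).symm
  · have h1 : q' = q := by
      refine Subtype.ext (h.trans ?_)
      exact one_smul G _
    subst h1
    change (1 : Matrix (κ × F) (κ × F) ℂ) (a, q') (b, q') = (1 : Matrix κ κ ℂ) a b
    rw [Matrix.one_apply, Matrix.one_apply]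
    by_cases h2 : a = b
    · rw [if_pos h2, if_pos (by rw [h2])]
    · rw [if_neg h2, if_neg fun h3 => h2 (congrArg Prod.fst h3)]
  · change (1 : Matrix (κ × F) (κ × F) ℂ) (a, q') (b, q) = 0
    rw [Matrix.one_apply, if_neg]
    intro h2
    refine h ?_
    have h3 : q' = q := congrArg Prod.snd h2
    rw [h3]
    exact (one_smul G (q : G ⧸ H)).symm

theorem val2_cons (p : ι × Bool) (w : List (ι × Bool)) (q : F) (h : Val2 z F Y w q) (h1 : (ev Cr.st z w).g • (q : G ⧸ H) ∈ F)
    (h2 : (ev Cr.st z (p :: w)).g • (q : G ⧸ H) ∈ F) : Val2 z F Y (p :: w) q := by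
  obtain ⟨w', h3, h4, hocc, h5⟩ := h
  have hX : ∀ b c (q2 : F), q2 ≠ ⟨_, h1⟩ → ev star (blk z F Y) w (c, q2) (b, q) = 0 := fun b c q2 hne =>
    (h5 c q2 b).2 fun h6 => hne (Subtype.ext h6)
  have hX' : ∀ b c, ev star (blk z F Y) w (c, ⟨_, h1⟩) (b, q) = ev star Y w' c b := fun b c => (h5 c ⟨_, h1⟩ b).1 rfl
  obtain ⟨i, t⟩ := p
  cases t with
  | false =>
    have h6 : (ev Cr.st z ((i, false) :: w)) = z i * ev Cr.st z w := ev_cons _ _ _ _
    have h7 : (ev Cr.st z ((i, false) :: w)).g • (q : G ⧸ H) = (z i).g • (ev Cr.st z w).g • (q : G ⧸ H) := by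
      rw [h6, Cr.mul_g, mul_smul]
    have hev : ev Cr.st (fam z F) (((i, ⟨_, h1⟩), false) :: w') = res α H (ev Cr.st z ((i, false) :: w)) q := by
      rw [ev_cons, h6, res_mul, h4]
      rfl
    refine ⟨((i, ⟨_, h1⟩), false) :: w', by rw [List.length_cons, List.length_cons, h3], hev,
      occ_cons hocc _ q (by rw [List.length_cons, List.length_cons, h3]) hev, fun a q' b => ?_⟩
    · have h8 : ev star (blk z F Y) ((i, false) :: w) (a, q') (b, q) =
          ∑ c, blk z F Y i (a, q') (c, ⟨_, h1⟩) * ev star Y w' c b := by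
        rw [ev_cons]
        refine (mul_entry F _ _ q ⟨_, h1⟩ b (hX b) a q').trans (sum_congr rfl fun c _ => ?_)
        rw [hX']
        rfl
      refine ⟨fun h9 => ?_, fun h9 => ?_⟩
      · rw [h8, ev_cons]
        change _ = (Y (i, ⟨_, h1⟩) * ev star Y w') a b
        rw [Matrix.mul_apply]
        refine sum_congr rfl fun c _ => ?_
        rw [blk, if_pos (h9.trans h7)]
      · rw [h8]
        refine sum_eq_zero fun c _ => ?_
        rw [blk, if_neg fun h10 => h9 (h10.trans h7.symm), zero_mul]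
  | true =>
    have h6 : (ev Cr.st z ((i, true) :: w)) = (z i).st * ev Cr.st z w := ev_cons _ _ _ _
    have h7 : (ev Cr.st z ((i, true) :: w)).g • (q : G ⧸ H) = (z i).g⁻¹ • (ev Cr.st z w).g • (q : G ⧸ H) := by
      rw [h6, Cr.mul_g, mul_smul]
      rfl
    have hev : ev Cr.st (fam z F) (((i, ⟨_, h2⟩), true) :: w') = res α H (ev Cr.st z ((i, true) :: w)) q := by
      have h8 : ev Cr.st (fam z F) (((i, ⟨_, h2⟩), true) :: w') =
          (res α H (z i) ((ev Cr.st z ((i, true) :: w)).g • (q : G ⧸ H))).st * ev Cr.st (fam z F) w' := ev_cons _ _ _ _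
      rw [h8, h4, ← res_st, h7, smul_inv_smul, h6, res_mul]
    refine ⟨((i, ⟨_, h2⟩), true) :: w', by rw [List.length_cons, List.length_cons, h3], hev,
      occ_cons hocc _ q (by rw [List.length_cons, List.length_cons, h3]) hev, fun a q' b => ?_⟩
    · have h8 : ev star (blk z F Y) ((i, true) :: w) (a, q') (b, q) =
          ∑ c, star (blk z F Y i (c, ⟨_, h1⟩) (a, q')) * ev star Y w' c b := by
        rw [ev_cons]
        refine (mul_entry F _ _ q ⟨_, h1⟩ b (hX b) a q').trans (sum_congr rfl fun c _ => ?_)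
        rw [hX']
        rfl
      refine ⟨fun h9 => ?_, fun h9 => ?_⟩
      · have h10 : q' = ⟨_, h2⟩ := Subtype.ext h9
        rw [h8, ev_cons]
        change _ = (star (Y (i, ⟨_, h2⟩)) * ev star Y w') a b
        rw [Matrix.mul_apply]
        refine sum_congr rfl fun c _ => ?_
        rw [blk, if_pos (by rw [h9, h7, smul_inv_smul]), Matrix.star_apply, h10]
      · rw [h8]
        refine sum_eq_zero fun c _ => ?_
        rw [blk, if_neg, star_zero, zero_mul]
        intro h10
        refine h9 ?_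
        rw [h7]
        have h11 : (ev Cr.st z w).g • (q : G ⧸ H) = (z i).g • (q' : G ⧸ H) := h10
        rw [h11, inv_smul_smul]

theorem val2_or (w : List (ι × Bool)) (q : F) : (Good z F w q → Val2 z F Y w q) ∧
    (¬ Good z F w q → ∀ a q' b, ev star (blk z F Y) w (a, q') (b, q) = 0) := by
  induction w with
  | nil => exact ⟨fun _ => val2_nil z F Y q, fun h => absurd trivial h⟩
  | cons p w ih =>
    refine ⟨fun h => val2_cons z F Y p w q (ih.1 h.1) (good_mem z F w q h.1) h.2, fun h a q' b => ?_⟩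
    by_cases h1 : Good z F w q
    · exact zero_cons' z F Y p w q (ih.1 h1).val (good_mem z F w q h1) (fun h2 => h ⟨h1, h2⟩) a q' b
    · exact zero_cons z F Y p w q (ih.2 h1) a q' b

end blocks

end QWEP
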