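import Pool.Agent.Lib.MP_47effe_an.Path
import Pool.Agent.Lib.MP_47effe_an.Co
import Pool.Agent.Lib.MP_47effe_an.Two

/-!
# Crossed products and microstates: co-amenable subgroups that act almost as another action
-/

namespace QWEP

open Finset

variable {A G : Type} [CStarAlgebra A] [Group G] {α : G →* (A ≃⋆ₐ[ℂ] A)} {τ : A →ₗ[ℂ] ℂ}

/-- Words in the same elements for two actions; the actions are only compared at the suffixes. -/
theorem word_suffix (hτ : TracialState τ) (β : G →* (A ≃⋆ₐ[ℂ] A)) (hβ : ∀ g x, τ (β g x) = τ x) {ι : Type} (x : ι → A) (g : ι → G)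
    {M δ : ℝ} (hM : 1 ≤ M) (hδ : 0 ≤ δ) (hx : ∀ i, ‖x i‖ ≤ M)
    (h1 : ∀ i, n2 τ (α (g i)⁻¹ (star (x i)) - β (g i)⁻¹ (star (x i))) ≤ δ) (w : List (ι × Bool))
    (h2 : ∀ i (u : List (ι × Bool)), u <:+ w → n2 τ (α (g i) (ev Cr.st (fun i => (⟨x i, g i⟩ : Cr α)) u).x -
      β (g i) (ev Cr.st (fun i => (⟨x i, g i⟩ : Cr α)) u).x) ≤ δ)
    (h2' : ∀ i (u : List (ι × Bool)), u <:+ w → n2 τ (α (g i)⁻¹ (ev Cr.st (fun i => (⟨x i, g i⟩ : Cr α)) u).x -
      β (g i)⁻¹ (ev Cr.st (fun i => (⟨x i, g i⟩ : Cr α)) u).x) ≤ δ) :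
    (ev Cr.st (fun i => (⟨x i, g i⟩ : Cr α)) w).g = (ev Cr.st (fun i => (⟨x i, g i⟩ : Cr β)) w).g ∧
    ‖(ev Cr.st (fun i => (⟨x i, g i⟩ : Cr β)) w).x‖ ≤ M ^ w.length ∧
      n2 τ ((ev Cr.st (fun i => (⟨x i, g i⟩ : Cr α)) w).x - (ev Cr.st (fun i => (⟨x i, g i⟩ : Cr β)) w).x) ≤
        2 * w.length * M ^ (w.length + 1) * δ := by
  have hM0 : 0 ≤ M := zero_le_one.trans hM
  have h00 : n2 τ (0 : A) = 0 := by rw [n2, mul_zero, map_zero, Complex.zero_re, Real.sqrt_zero]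
  induction w with
  | nil =>
    refine ⟨rfl, ?_, ?_⟩
    · change ‖(1 : A)‖ ≤ M ^ 0
      rw [pow_zero]
      rcases subsingleton_or_nontrivial A with h | h
      · rw [Subsingleton.elim (1 : A) 0, norm_zero]
        exact zero_le_one
      · rw [CStarRing.norm_one]
    · change n2 τ ((1 : A) - 1) ≤ _
      rw [sub_self, h00]
      simp
  | cons p w ih =>
    have hsuf : ∀ u, u <:+ w → u <:+ p :: w := fun u hu => hu.trans (List.suffix_cons p w)
    obtain ⟨h3, h4, h5⟩ := ih (fun i u hu => h2 i u (hsuf u hu)) fun i u hu => h2' i u (hsuf u hu)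
    have hw' := hsuf w List.suffix_rfl
    -- the letters
    have hl : ∃ (a a' : A) (k : G), (if p.2 then (⟨x p.1, g p.1⟩ : Cr α).st else ⟨x p.1, g p.1⟩) = ⟨a, k⟩ ∧
        (if p.2 then (⟨x p.1, g p.1⟩ : Cr β).st else ⟨x p.1, g p.1⟩) = ⟨a', k⟩ ∧ ‖a‖ ≤ M ∧ ‖a'‖ ≤ M ∧ n2 τ (a - a') ≤ δ ∧
        n2 τ (α k (ev Cr.st (fun i => (⟨x i, g i⟩ : Cr α)) w).x - β k (ev Cr.st (fun i => (⟨x i, g i⟩ : Cr α)) w).x) ≤ δ := by
      by_cases hp : p.2
      · rw [if_pos hp, if_pos hp]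
        refine ⟨α (g p.1)⁻¹ (star (x p.1)), β (g p.1)⁻¹ (star (x p.1)), (g p.1)⁻¹, rfl, rfl, ?_, ?_, h1 _, h2' _ _ hw'⟩
        · rw [StarAlgEquiv.norm_map, norm_star]
          exact hx _
        · rw [StarAlgEquiv.norm_map, norm_star]
          exact hx _
      · rw [if_neg hp, if_neg hp]
        exact ⟨_, _, _, rfl, rfl, hx _, hx _, by rw [sub_self, h00]; exact hδ, h2 _ _ hw'⟩
    obtain ⟨a, a', k, hl1, hl2, ha, ha', haa, hk⟩ := hl
    have e1 : ev Cr.st (fun i => (⟨x i, g i⟩ : Cr α)) (p :: w) = (⟨a, k⟩ : Cr α) * ev Cr.st (fun i => (⟨x i, g i⟩ : Cr α)) w := by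
      rw [ev_cons, hl1]
    have e2 : ev Cr.st (fun i => (⟨x i, g i⟩ : Cr β)) (p :: w) = (⟨a', k⟩ : Cr β) * ev Cr.st (fun i => (⟨x i, g i⟩ : Cr β)) w := by
      rw [ev_cons, hl2]
    rw [e1, e2, List.length_cons]
    generalize ev Cr.st (fun i => (⟨x i, g i⟩ : Cr α)) w = s at h3 h5 hk
    generalize ev Cr.st (fun i => (⟨x i, g i⟩ : Cr β)) w = t at h3 h4 h5
    refine ⟨?_, ?_, ?_⟩
    · rw [Cr.mul_g, Cr.mul_g, h3]
    · change ‖a' * β k t.x‖ ≤ M ^ (w.length + 1)
      refine (norm_mul_le _ _).trans ?_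
      rw [StarAlgEquiv.norm_map, pow_succ, mul_comm]
      exact mul_le_mul h4 ha' (norm_nonneg _) (by positivity)
    · change n2 τ (a * α k s.x - a' * β k t.x) ≤ _
      have h6 : a * α k s.x - a' * β k t.x = a * (α k s.x - β k s.x) + (a * β k (s.x - t.x) + (a - a') * β k t.x) := by
        rw [map_sub]
        noncomm_ring
      rw [h6]
      have h7 : n2 τ (a * (α k s.x - β k s.x)) ≤ M * δ :=
        (n2_left hτ _ _).trans (mul_le_mul ha hk (n2_nonneg _) hM0)
      have h8 : n2 τ (a * β k (s.x - t.x)) ≤ M * (2 * w.length * M ^ (w.length + 1) * δ) := by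
        refine (n2_left hτ _ _).trans ?_
        rw [n2_map (hβ _)]
        exact mul_le_mul ha h5 (n2_nonneg _) hM0
      have h9 : n2 τ ((a - a') * β k t.x) ≤ δ * M ^ w.length := by
        refine (n2_right hτ _ _).trans ?_
        rw [StarAlgEquiv.norm_map]
        exact mul_le_mul haa h4 (norm_nonneg _) hδ
      refine (n2_add hτ _ _).trans ((add_le_add h7 ((n2_add hτ _ _).trans (add_le_add h8 h9))).trans ?_)
      have h10 : δ * M ^ w.length ≤ δ * M ^ (w.length + 1 + 1) :=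
        mul_le_mul_of_nonneg_left (pow_le_pow_right₀ hM (by omega)) hδ
      have h11 : M * δ ≤ δ * M ^ (w.length + 1 + 1) := by
        rw [mul_comm]
        refine mul_le_mul_of_nonneg_left ?_ hδ
        calc M = M ^ 1 := (pow_one M).symm
          _ ≤ M ^ (w.length + 1 + 1) := pow_le_pow_right₀ hM (by omega)
      push_cast
      calc M * δ + (M * (2 * w.length * M ^ (w.length + 1) * δ) + δ * M ^ w.length) ≤
          δ * M ^ (w.length + 1 + 1) + (M * (2 * w.length * M ^ (w.length + 1) * δ) + δ * M ^ (w.length + 1 + 1)) := by linarith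
        _ = 2 * (w.length + 1) * M ^ (w.length + 1 + 1) * δ := by ring

/-- Covariant microstates from microstates for the words that occur. -/
theorem cov_of_occ (hα : ∀ g x, τ (α g x) = τ x)
    (h : ∀ (ι : Type) (_ : Finite ι) (z : ι → Cr α) (N : ℕ) (ε : ℝ), 0 < ε → ∃ H : Subgroup G, Coamenable H ∧
      ∀ F : Finset (G ⧸ H), ∃ (κ : Type) (_ : Fintype κ) (_ : DecidableEq κ) (_ : Nonempty κ) (Y : ι × F → Matrix κ κ ℂ),
        (∀ p, Bd ‖(fam z F p).x‖ (Y p)) ∧ ∀ w', w'.length ≤ N → Occ z F w' → (ev Cr.st (fam z F) w').g = 1 →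
          ‖ntr (ev star Y w') - τ (ev Cr.st (fam z F) w').x‖ ≤ ε) : Cov α τ := by
  classical
  intro ι hι z N ε hε
  obtain ⟨B, hB0, hB⟩ := exists_bound N fun w : List (ι × Bool) => τ (ev Cr.st z w).x
  obtain ⟨H, hH, h⟩ := h ι hι z N (ε / 2) (by positivity)
  have hfin := (List.finite_length_le (ι × Bool) N).image fun w => (ev Cr.st z w).g
  obtain ⟨F, hF1, hF2⟩ := hH hfin.toFinset (ε / (2 * (N + 1) * B)) (by positivity)
  obtain ⟨κ, i1, i2, i3, Y, h4, h5⟩ := h F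
  haveI : Nonempty F := ⟨⟨hF1.choose, hF1.choose_spec⟩⟩
  refine ⟨κ × F, inferInstance, inferInstance, inferInstance, blk z F Y, fun i => ?_, fun w hw hg => ?_⟩
  · refine blk_bd z F Y i fun q => ?_
    have h6 : ‖(fam z F (i, q)).x‖ = ‖(z i).x‖ := StarAlgEquiv.norm_map (α (sec ((z i).g • (q : G ⧸ H)))⁻¹) (z i).x
    rw [← h6]
    exact h4 (i, q)
  have hcard := bad_card z F hfin.toFinset (ε / (2 * (N + 1) * B)) N
    (fun w hw => hfin.mem_toFinset.2 ⟨w, hw, rfl⟩) hF2 w hw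
  have hκ : (0 : ℝ) < Fintype.card κ := by exact_mod_cast Fintype.card_pos
  have hFc : (0 : ℝ) < F.card := by exact_mod_cast hF1.card_pos
  have hκ' : (Fintype.card κ : ℂ) ≠ 0 := by exact_mod_cast hκ.ne'
  have hFc' : (F.card : ℂ) ≠ 0 := by exact_mod_cast hFc.ne'
  -- the blocks
  have hq : ∀ q : F, ‖(∑ a, ev star (blk z F Y) w (a, q) (a, q)) / Fintype.card κ - τ (ev Cr.st z w).x‖ ≤
      ε / 2 + if Good z F w q then 0 else B := by
    intro q
    by_cases h6 : Good z F w q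
    · rw [if_pos h6, add_zero]
      obtain ⟨w', h7, h8, hocc, h9⟩ := (val2_or z F Y w q).1 h6
      have h10 : ∀ a, ev star (blk z F Y) w (a, q) (a, q) = ev star Y w' a a := fun a =>
        (h9 a q a).1 (by rw [hg, one_smul])
      have h11 : (ev Cr.st (fam z F) w').g = 1 := by
        rw [h8]
        refine Subtype.ext ?_
        change (sec ((ev Cr.st z w).g • (q : G ⧸ H)))⁻¹ * ((ev Cr.st z w).g * sec (q : G ⧸ H)) = 1
        rw [hg, one_smul, one_mul, inv_mul_cancel]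
      have h12 : τ (ev Cr.st (fam z F) w').x = τ (ev Cr.st z w).x := by
        rw [h8]
        exact hα _ _
      have h13 := h5 w' (by rw [h7]; exact hw) hocc h11
      rw [h12] at h13
      simp only [h10]
      exact h13
    · rw [if_neg h6]
      have h7 := (val2_or z F Y w q).2 h6
      simp only [h7, sum_const_zero, zero_div, zero_sub, norm_neg]
      have h8 := hB w hw
      linarith
  have h6 : ntr (ev star (blk z F Y) w) - τ (ev Cr.st z w).x =
      (∑ q : F, ((∑ a, ev star (blk z F Y) w (a, q) (a, q)) / Fintype.card κ - τ (ev Cr.st z w).x)) / F.card := by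
    rw [sum_sub_distrib, sum_const, card_univ, Fintype.card_coe, nsmul_eq_mul, ← sum_div, ntr, Matrix.trace,
      Fintype.sum_prod_type, sum_comm, Fintype.card_prod, Fintype.card_coe, Nat.cast_mul]
    simp only [Matrix.diag]
    field_simp
  rw [h6, norm_div, Complex.norm_natCast, div_le_iff₀ hFc]
  refine (norm_sum_le _ _).trans ((sum_le_sum fun q _ => hq q).trans ?_)
  have h7 : ∑ q : F, (ε / 2 + if Good z F w q then 0 else B) = ∑ q ∈ F, (ε / 2 + if Good z F w q then 0 else B) :=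
    Finset.sum_coe_sort F fun q => ε / 2 + if Good z F w q then (0 : ℝ) else B
  have h8 : ∑ q ∈ F, (if Good z F w q then (0 : ℝ) else B) = (F.filter fun q => ¬ Good z F w q).card * B := by
    rw [← sum_filter_add_sum_filter_not F (fun q => Good z F w q)]
    rw [sum_congr rfl fun q hq => if_pos (mem_filter.1 hq).2, sum_congr (s₁ := F.filter fun q => ¬ Good z F w q) rfl
      fun q hq => if_neg (mem_filter.1 hq).2, sum_const_zero, zero_add, sum_const, nsmul_eq_mul]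
  rw [h7, sum_add_distrib, h8, sum_const, nsmul_eq_mul]
  have hN : (w.length : ℝ) ≤ N := by exact_mod_cast hw
  have h9 : ((F.filter fun q => ¬ Good z F w q).card : ℝ) * B ≤ ε / 2 * F.card := by
    calc ((F.filter fun q => ¬ Good z F w q).card : ℝ) * B ≤ (w.length * (ε / (2 * (N + 1) * B) * F.card)) * B :=
          mul_le_mul_of_nonneg_right hcard hB0.le
      _ ≤ ((N + 1) * (ε / (2 * (N + 1) * B) * F.card)) * B := by
          refine mul_le_mul_of_nonneg_right (mul_le_mul_of_nonneg_right (by linarith) (by positivity)) hB0.le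
      _ = ε / 2 * F.card := by field_simp
  linarith

/-- Covariant microstates exist if for finite `D` and `ε` a co-amenable subgroup acts on the orbits of `D` up to `ε` and on finite sets as
actions with covariant microstates. -/
theorem cov_of_unif (hτ : TracialState τ) (hα : ∀ g x, τ (α g x) = τ x)
    (h : ∀ (D : Finset A) (ε : ℝ), 0 < ε → ∃ H : Subgroup G, Coamenable H ∧ ∀ (E : Finset H) (T : Finset G),
      ∃ β : H →* (A ≃⋆ₐ[ℂ] A), (∀ k x, τ (β k x) = τ x) ∧ Cov β τ ∧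
        ∀ k ∈ E, ∀ g ∈ T, ∀ x ∈ D, n2 τ (α k (α g x) - β k (α g x)) ≤ ε) : Cov α τ := by
  classical
  refine cov_of_occ hα fun ι hι z N ε hε => ?_
  obtain ⟨M0, hM0⟩ := (Set.finite_range fun i => ‖(z i).x‖).bddAbove
  let M : ℝ := max M0 1
  have hM : 1 ≤ M := le_max_right _ _
  have hM' : ∀ i, ‖(z i).x‖ ≤ M := fun i => (hM0 ⟨i, rfl⟩).trans (le_max_left _ _)
  let δ : ℝ := ε / (2 * (2 * (N + 1) * M ^ (N + 1)))
  have hδ : 0 < δ := by positivity
  have d1 := Set.finite_range fun i => star (z i).x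
  have d2 := (List.finite_length_le (ι × Bool) N).image fun w => (ev Cr.st z w).x
  obtain ⟨H, hH, h⟩ := h (d1.toFinset ∪ d2.toFinset) δ hδ
  refine ⟨H, hH, fun F => ?_⟩
  have e1 := Set.finite_range fun p : ι × F => (fam z F p).g
  have e2 := Set.finite_range fun p : ι × F => ((fam z F p).g)⁻¹
  have t1 := Set.finite_range fun p : ι × F => (sec ((z p.1).g • (p.2 : G ⧸ H)))⁻¹
  have t2 := ((List.finite_length_le (ι × Bool) N).prod (Set.finite_univ (α := F))).image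
    fun p => (sec ((ev Cr.st z p.1).g • (p.2 : G ⧸ H)))⁻¹
  obtain ⟨β, hβ, h2, h3⟩ := h (e1.toFinset ∪ e2.toFinset) (t1.toFinset ∪ t2.toFinset)
  have m1 : ∀ i, (fam z F i).g ∈ e1.toFinset ∪ e2.toFinset := fun i => mem_union_left _ (e1.mem_toFinset.2 ⟨i, rfl⟩)
  have m2 : ∀ i, ((fam z F i).g)⁻¹ ∈ e1.toFinset ∪ e2.toFinset := fun i => mem_union_right _ (e2.mem_toFinset.2 ⟨i, rfl⟩)
  obtain ⟨κ, i1, i2, i3, Y, h4, h5⟩ := h2 (ι × F) inferInstance (fun p => ⟨(fam z F p).x, (fam z F p).g⟩) N (ε / 2) (by positivity)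
  refine ⟨κ, i1, i2, i3, Y, h4, fun w' hw' hocc hg => ?_⟩
  have hn : ∀ p, ‖(fam z F p).x‖ ≤ M := by
    intro p
    have h6 : ‖(fam z F p).x‖ = ‖(z p.1).x‖ := StarAlgEquiv.norm_map (α (sec ((z p.1).g • (p.2 : G ⧸ H)))⁻¹) (z p.1).x
    rw [h6]
    exact hM' _
  have hl : ∀ p : ι × F, n2 τ ((α.comp H.subtype) ((fam z F p).g)⁻¹ (star (fam z F p).x) - β ((fam z F p).g)⁻¹ (star (fam z F p).x)) ≤ δ := by
    intro p
    have h6 : star (fam z F p).x = α (sec ((z p.1).g • (p.2 : G ⧸ H)))⁻¹ (star (z p.1).x) :=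
      (map_star (α (sec ((z p.1).g • (p.2 : G ⧸ H)))⁻¹) (z p.1).x).symm
    rw [h6]
    exact h3 _ (m2 p) _ (mem_union_left _ (t1.mem_toFinset.2 ⟨p, rfl⟩)) _ (mem_union_left _ (d1.mem_toFinset.2 ⟨p.1, rfl⟩))
  have hsuf : ∀ (k : H), k ∈ e1.toFinset ∪ e2.toFinset → ∀ u : List ((ι × F) × Bool), u <:+ w' →
      n2 τ ((α.comp H.subtype) k (ev Cr.st (fam z F) u).x - β k (ev Cr.st (fam z F) u).x) ≤ δ := by
    intro k hk u hu
    obtain ⟨w, q, h6, h7⟩ := hocc u hu
    have h8 : (ev Cr.st (fam z F) u).x = α (sec ((ev Cr.st z w).g • (q : G ⧸ H)))⁻¹ (ev Cr.st z w).x := by rw [h7]; rfl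
    have h9 : w.length ≤ N := by rw [h6]; exact hu.length_le.trans hw'
    rw [h8]
    exact h3 _ hk _ (mem_union_right _ (t2.mem_toFinset.2 ⟨(w, q), ⟨h9, Set.mem_univ _⟩, rfl⟩)) _
      (mem_union_right _ (d2.mem_toFinset.2 ⟨w, h9, rfl⟩))
  obtain ⟨h8, -, h9⟩ := word_suffix (α := α.comp H.subtype) hτ β hβ (fun p => (fam z F p).x) (fun p => (fam z F p).g) hM hδ.le hn hl w'
    (fun i u hu => hsuf _ (m1 i) u hu) (fun i u hu => hsuf _ (m2 i) u hu)
  have h10 : (ev Cr.st (fun p => (⟨(fam z F p).x, (fam z F p).g⟩ : Cr (α.comp H.subtype))) w') = ev Cr.st (fam z F) w' := rfl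
  rw [h10] at h8 h9
  have h11 := h5 w' hw' (h8.symm.trans hg)
  have h12 : ‖τ (ev Cr.st (fun p => (⟨(fam z F p).x, (fam z F p).g⟩ : Cr β)) w').x - τ (ev Cr.st (fam z F) w').x‖ ≤ ε / 2 := by
    rw [← norm_neg, neg_sub, ← map_sub]
    refine (n2_apply hτ _).trans (h9.trans ?_)
    calc 2 * (w'.length : ℝ) * M ^ (w'.length + 1) * δ ≤ 2 * (N + 1) * M ^ (N + 1) * δ := by
          refine mul_le_mul_of_nonneg_right (mul_le_mul ?_ (pow_le_pow_right₀ hM (by omega)) (by positivity) (by positivity)) hδ.le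
          have h13 : (w'.length : ℝ) ≤ N := by exact_mod_cast hw'
          linarith
      _ = ε / 2 := by
          simp only [δ]
          field_simp
  have h13 : ntr (ev star Y w') - τ (ev Cr.st (fam z F) w').x =
      (ntr (ev star Y w') - τ (ev Cr.st (fun p => (⟨(fam z F p).x, (fam z F p).g⟩ : Cr β)) w').x) +
        (τ (ev Cr.st (fun p => (⟨(fam z F p).x, (fam z F p).g⟩ : Cr β)) w').x - τ (ev Cr.st (fam z F) w').x) := by ring
  rw [h13]
  refine (norm_add_le _ _).trans ?_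
  linarith

end QWEP
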