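import Pool.Agent.Lib.MP_47effe_an.Main

/-!
# Crossed products and microstates: finite orthonormal families which are almost invariant
-/

namespace QWEP

open Finset
open scoped InnerProductSpace

section hilb

variable {V : Type} [NormedAddCommGroup V] [InnerProductSpace ℂ V] {κ : Type} [Fintype κ] {w : κ → V}

theorem hilb_resid (hw : Orthonormal ℂ w) (x : V) :
    ‖x - ∑ i, ⟪w i, x⟫_ℂ • w i‖ ^ 2 = ‖x‖ ^ 2 - ∑ i, ‖⟪w i, x⟫_ℂ‖ ^ 2 := by
  classical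
  have h₂ : (∑ i, ∑ j, ⟪w i, x⟫_ℂ * ⟪x, w j⟫_ℂ * ⟪w j, w i⟫_ℂ) = (∑ k, ⟪w k, x⟫_ℂ * ⟪x, w k⟫_ℂ : ℂ) :=
    hw.inner_left_right_finset
  have h₃ : ∀ z : ℂ, RCLike.re (z * (starRingEnd ℂ) z) = ‖z‖ ^ 2 := by
    intro z
    simp only [RCLike.mul_conj]
    norm_cast
  rw [@norm_sub_sq ℂ, sub_add]
  simp only [@InnerProductSpace.norm_sq_eq_re_inner ℂ V, inner_sum, sum_inner]
  simp only [inner_smul_right, two_mul, inner_smul_left, inner_conj_symm, ← mul_assoc, h₂,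
    add_sub_cancel_right, sub_right_inj]
  simp only [map_sum, ← inner_conj_symm x, ← h₃]

theorem hilb_bessel (hw : Orthonormal ℂ w) (x : V) : ∑ i, ‖⟪w i, x⟫_ℂ‖ ^ 2 ≤ ‖x‖ ^ 2 := by
  have h1 := hilb_resid hw x
  have h2 := sq_nonneg ‖x - ∑ i, ⟪w i, x⟫_ℂ • w i‖
  linarith

theorem hilb_sum (hw : Orthonormal ℂ w) (c : κ → ℂ) : ‖∑ i, c i • w i‖ ^ 2 = ∑ i, ‖c i‖ ^ 2 := by
  classical
  have h₃ : ∀ z : ℂ, RCLike.re ((starRingEnd ℂ) z * z) = ‖z‖ ^ 2 := by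
    intro z
    simp only [RCLike.conj_mul]
    norm_cast
  rw [@InnerProductSpace.norm_sq_eq_re_inner ℂ V, hw.inner_sum, map_sum]
  exact sum_congr rfl fun i _ => h₃ _

/-- The compression of the operator `T` to the span of `w`. -/
noncomputable def cmp (w : κ → V) (T : V →L[ℂ] V) : Matrix κ κ ℂ := fun b a => ⟪w b, T (w a)⟫_ℂ

theorem cmp_star [CompleteSpace V] (T : V →L[ℂ] V) : star (cmp w T) = cmp w (star T) := by
  ext b a
  rw [Matrix.star_apply, cmp, cmp, ContinuousLinearMap.star_eq_adjoint, ContinuousLinearMap.adjoint_inner_right]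
  exact inner_conj_symm _ _

theorem cmp_mulVec (T : V →L[ℂ] V) (v : κ → ℂ) (b : κ) : (cmp w T).mulVec v b = ⟪w b, T (∑ a, v a • w a)⟫_ℂ := by
  rw [map_sum, inner_sum, Matrix.mulVec, dotProduct]
  refine sum_congr rfl fun a _ => ?_
  rw [map_smul, inner_smul_right, mul_comm]
  rfl

theorem cmp_bd (hw : Orthonormal ℂ w) {T : V →L[ℂ] V} {C : ℝ} (hT : ∀ v, ‖T v‖ ≤ C * ‖v‖) : Bd C (cmp w T) := by
  intro v
  simp only [cmp_mulVec]
  refine (hilb_bessel hw _).trans ?_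
  rw [← hilb_sum hw v, ← mul_pow]
  exact pow_le_pow_left₀ (norm_nonneg _) (hT _) 2

/-- The square of the Hilbert-Schmidt norm of `M - cmp w T`. -/
noncomputable def er (w : κ → V) (M : Matrix κ κ ℂ) (T : V →L[ℂ] V) : ℝ := ∑ a, ∑ e, ‖M e a - cmp w T e a‖ ^ 2

/-- The square of the Hilbert-Schmidt norm of `(1 - p) T p` where `p` is the projection onto the span of `w`. -/
noncomputable def off (w : κ → V) (T : V →L[ℂ] V) : ℝ := ∑ a, (‖T (w a)‖ ^ 2 - ∑ b, ‖⟪w b, T (w a)⟫_ℂ‖ ^ 2)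

theorem er_mul (hw : Orthonormal ℂ w) {S T : V →L[ℂ] V} {M : Matrix κ κ ℂ} {C : ℝ}
    (hS : ∀ v, ‖S v‖ ≤ C * ‖v‖) : er w (cmp w S * M) (S * T) ≤ 2 * C ^ 2 * (er w M T + off w T) := by
  have h1 : ∀ a e, (cmp w S * M) e a - cmp w (S * T) e a =
      (cmp w S).mulVec (fun b => M b a - cmp w T b a) e - ⟪w e, S (T (w a) - ∑ b, ⟪w b, T (w a)⟫_ℂ • w b)⟫_ℂ := by
    intro a e
    rw [map_sub, inner_sub_right, ← cmp_mulVec]
    have h2 : (cmp w S).mulVec (fun b => M b a - cmp w T b a) e = (cmp w S * M) e a -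
        (cmp w S).mulVec (fun b => ⟪w b, T (w a)⟫_ℂ) e := by
      simp only [Matrix.mulVec, dotProduct, Matrix.mul_apply, mul_sub, sum_sub_distrib]
      rfl
    rw [h2, cmp]
    change _ - ⟪w e, S (T (w a))⟫_ℂ = _
    ring
  have h2 : ∀ u v : ℂ, ‖u - v‖ ^ 2 ≤ 2 * ‖u‖ ^ 2 + 2 * ‖v‖ ^ 2 := by
    intro u v
    have h3 := norm_sub_le u v
    have h4 := pow_le_pow_left₀ (norm_nonneg _) h3 2
    nlinarith [sq_nonneg (‖u‖ - ‖v‖)]
  have h3 : ∀ a, ∑ e, ‖(cmp w S * M) e a - cmp w (S * T) e a‖ ^ 2 ≤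
      2 * (C ^ 2 * ∑ e, ‖M e a - cmp w T e a‖ ^ 2) +
        2 * (C ^ 2 * (‖T (w a)‖ ^ 2 - ∑ b, ‖⟪w b, T (w a)⟫_ℂ‖ ^ 2)) := by
    intro a
    refine (sum_le_sum fun e _ => (congrArg (fun u : ℂ => ‖u‖ ^ 2) (h1 a e)).le.trans (h2 _ _)).trans ?_
    rw [sum_add_distrib, ← mul_sum, ← mul_sum]
    refine add_le_add (mul_le_mul_of_nonneg_left ?_ zero_le_two) (mul_le_mul_of_nonneg_left ?_ zero_le_two)
    · exact cmp_bd hw hS _
    · refine (hilb_bessel hw _).trans ?_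
      rw [← hilb_resid hw, ← mul_pow]
      exact pow_le_pow_left₀ (norm_nonneg _) (hS _) 2
  refine (sum_le_sum fun a _ => h3 a).trans ?_
  rw [sum_add_distrib, ← mul_sum, ← mul_sum, ← mul_sum, ← mul_sum, er, off]
  linarith

theorem off_eq (hw : Orthonormal ℂ w) (T : V →L[ℂ] V) : off w T = ∑ a, ‖T (w a) - ∑ b, ⟪w b, T (w a)⟫_ℂ • w b‖ ^ 2 :=
  sum_congr rfl fun a _ => (hilb_resid hw (T (w a))).symm

theorem off_sum (hw : Orthonormal ℂ w) (c : Fin 4 → ℂ) (T : Fin 4 → (V →L[ℂ] V)) {b : ℝ} (hc : ∀ l, ‖c l‖ ≤ b) :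
    off w (∑ l, c l • T l) ≤ 4 * b ^ 2 * ∑ l, off w (T l) := by
  simp only [off_eq hw]
  rw [sum_comm, mul_sum]
  refine sum_le_sum fun a _ => ?_
  have h1 : (∑ l, c l • T l) (w a) - ∑ e, ⟪w e, (∑ l, c l • T l) (w a)⟫_ℂ • w e =
      ∑ l, c l • (T l (w a) - ∑ e, ⟪w e, T l (w a)⟫_ℂ • w e) := by
    simp only [ContinuousLinearMap.sum_apply, ContinuousLinearMap.smul_apply, smul_sub, sum_sub_distrib, inner_sum, inner_smul_right,
      sum_smul, smul_sum, smul_smul]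
    rw [sum_comm]
  rw [h1]
  have h2 : ‖∑ l, c l • (T l (w a) - ∑ e, ⟪w e, T l (w a)⟫_ℂ • w e)‖ ≤
      ∑ l, ‖c l‖ * ‖T l (w a) - ∑ e, ⟪w e, T l (w a)⟫_ℂ • w e‖ := by
    refine (norm_sum_le _ _).trans (sum_le_sum fun l _ => ?_)
    rw [norm_smul]
  refine (pow_le_pow_left₀ (norm_nonneg _) h2 2).trans ?_
  have h3 := sq_sum_le_card_mul_sum_sq (s := (univ : Finset (Fin 4)))
    (f := fun l => ‖c l‖ * ‖T l (w a) - ∑ e, ⟪w e, T l (w a)⟫_ℂ • w e‖)
  rw [card_univ, Fintype.card_fin] at h3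
  refine h3.trans ?_
  rw [mul_assoc]
  refine mul_le_mul_of_nonneg_left ?_ (by norm_num)
  rw [mul_sum]
  refine sum_le_sum fun l _ => ?_
  rw [mul_pow]
  exact mul_le_mul_of_nonneg_right (pow_le_pow_left₀ (norm_nonneg _) (hc l) 2) (sq_nonneg _)

end hilb

section block

variable {V : Type} [NormedAddCommGroup V] [InnerProductSpace ℂ V]
  {K : Type} [Fintype K] [DecidableEq K] {m : K → Type} [∀ k, Fintype (m k)] [∀ k, DecidableEq (m k)] {w : ∀ k, m k → V}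

theorem block_ev {ι : Type} (Y : ι → ∀ k, Matrix (m k) (m k) ℂ) (W : List (ι × Bool)) :
    ev star (fun i => Matrix.blockDiagonal' (Y i)) W = Matrix.blockDiagonal' fun k => ev star (fun i => Y i k) W := by
  induction W with
  | nil => exact Matrix.blockDiagonal'_one.symm
  | cons p W ih =>
    rw [ev_cons, ih]
    have h1 : (if p.2 then star (Matrix.blockDiagonal' (Y p.1)) else Matrix.blockDiagonal' (Y p.1)) =
        Matrix.blockDiagonal' fun k => if p.2 then star (Y p.1 k) else Y p.1 k := by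
      split_ifs
      · exact Matrix.blockDiagonal'_conjTranspose _
      · rfl
    rw [h1, ← Matrix.blockDiagonal'_mul]
    rfl

theorem block_bd {C : ℝ} {Y : ∀ k, Matrix (m k) (m k) ℂ} (h : ∀ k, Bd C (Y k)) : Bd C (Matrix.blockDiagonal' Y) := by
  intro v
  have h1 : ∀ k b, (Matrix.blockDiagonal' Y).mulVec v ⟨k, b⟩ = (Y k).mulVec (fun a => v ⟨k, a⟩) b := by
    intro k b
    rw [Matrix.mulVec, dotProduct, Fintype.sum_sigma, Fintype.sum_eq_single k]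
    · simp only [Matrix.blockDiagonal'_apply_eq]
      rfl
    · intro k' hk'
      refine sum_eq_zero fun a _ => ?_
      rw [Matrix.blockDiagonal'_apply_ne _ _ _ hk'.symm, zero_mul]
  rw [Fintype.sum_sigma, Fintype.sum_sigma, mul_sum]
  refine sum_le_sum fun k _ => ?_
  simp only [h1]
  exact h k _

theorem block_ntr {Y : ∀ k, Matrix (m k) (m k) ℂ} {T : V →L[ℂ] V} {δ : ℝ} (hd : 0 < Fintype.card (Σ k, m k))
    (h : ∑ k, er (w k) (Y k) T ≤ δ ^ 2 * Fintype.card (Σ k, m k)) (hδ : 0 ≤ δ) :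
    ‖ntr (Matrix.blockDiagonal' Y) - (∑ k, ∑ a, ⟪w k a, T (w k a)⟫_ℂ) / Fintype.card (Σ k, m k)‖ ≤ δ := by
  have hd' : (0 : ℝ) < Fintype.card (Σ k, m k) := by exact_mod_cast hd
  set c := Fintype.card (Σ k, m k) with hc
  have h1 : ntr (Matrix.blockDiagonal' Y) - (∑ k, ∑ a, ⟪w k a, T (w k a)⟫_ℂ) / c =
      (∑ p : Σ k, m k, (Y p.1 p.2 p.2 - cmp (w p.1) T p.2 p.2)) / c := by
    rw [ntr, Matrix.trace_blockDiagonal', ← sub_div, ← sum_sub_distrib, Fintype.sum_sigma]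
    congr 1
    refine sum_congr rfl fun k _ => ?_
    rw [sum_sub_distrib]
    rfl
  rw [h1, norm_div, Complex.norm_natCast, div_le_iff₀ hd']
  refine (norm_sum_le _ _).trans ?_
  have h2 : (∑ p : Σ k, m k, ‖Y p.1 p.2 p.2 - cmp (w p.1) T p.2 p.2‖) ^ 2 ≤
      c * ∑ p : Σ k, m k, ‖Y p.1 p.2 p.2 - cmp (w p.1) T p.2 p.2‖ ^ 2 := by
    have h3 := sq_sum_le_card_mul_sum_sq (s := (univ : Finset (Σ k, m k)))
      (f := fun p => ‖Y p.1 p.2 p.2 - cmp (w p.1) T p.2 p.2‖)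
    rwa [card_univ] at h3
  have h3 : ∑ p : Σ k, m k, ‖Y p.1 p.2 p.2 - cmp (w p.1) T p.2 p.2‖ ^ 2 ≤ ∑ k, er (w k) (Y k) T := by
    rw [Fintype.sum_sigma]
    exact sum_le_sum fun k _ => sum_le_sum fun a _ =>
      single_le_sum (f := fun e => ‖Y k e a - cmp (w k) T e a‖ ^ 2) (fun _ _ => sq_nonneg _) (mem_univ a)
  have h4 : (∑ p : Σ k, m k, ‖Y p.1 p.2 p.2 - cmp (w p.1) T p.2 p.2‖) ^ 2 ≤ (δ * c) ^ 2 := by
    refine h2.trans ?_
    have h5 := mul_le_mul_of_nonneg_left (h3.trans h) hd'.le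
    calc (c : ℝ) * ∑ p : Σ k, m k, ‖Y p.1 p.2 p.2 - cmp (w p.1) T p.2 p.2‖ ^ 2 ≤ c * (δ ^ 2 * c) := h5
      _ = (δ * c) ^ 2 := by ring
  exact le_of_sq_le_sq h4 (by positivity)

/-- Words in finitely many operators `R (z i)`. -/
theorem er_ev [CompleteSpace V] {S : Type} [Monoid S] {st : S → S} {R : S → (V →L[ℂ] V)} (hR1 : R 1 = 1)
    (hRm : ∀ s t, R (s * t) = R s * R t) (hRs : ∀ s, R (st s) = star (R s)) (hw : ∀ k, Orthonormal ℂ (w k)) {ι : Type} {z : ι → S}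
    {C δ : ℝ} (hC1 : 1 ≤ C) (hC : ∀ i v, ‖R (z i) v‖ ≤ C * ‖v‖) (hC' : ∀ i v, ‖R (st (z i)) v‖ ≤ C * ‖v‖) (hδ : 0 ≤ δ) (N : ℕ)
    (h : ∀ W : List (ι × Bool), W.length ≤ N → ∑ k, off (w k) (R (ev st z W)) ≤ δ) (W : List (ι × Bool)) (hW : W.length ≤ N) :
    ∑ k, er (w k) (ev star (fun i => cmp (w k) (R (z i))) W) (R (ev st z W)) ≤ (4 * C ^ 2) ^ W.length * δ := by
  classical
  induction W with
  | nil =>
    have h1 : ∑ k, er (w k) (ev star (fun i => cmp (w k) (R (z i))) []) (R (ev st z [])) = 0 := by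
      refine sum_eq_zero fun k _ => ?_
      rw [er]
      refine sum_eq_zero fun a _ => sum_eq_zero fun e _ => ?_
      have h2 : ⟪w k e, w k a⟫_ℂ = if e = a then 1 else 0 := orthonormal_iff_ite.1 (hw k) e a
      rw [ev_nil, ev_nil, hR1, cmp, one_apply_eq_self, h2, Matrix.one_apply, sub_self, norm_zero]
      norm_num
    rw [h1]
    positivity
  | cons p W ih =>
    have h1 : W.length ≤ N := by
      rw [List.length_cons] at hW
      omega
    have h2 := ih h1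
    have h4 : ∀ v, ‖R (if p.2 then st (z p.1) else z p.1) v‖ ≤ C * ‖v‖ := by
      split_ifs
      · exact hC' _
      · exact hC _
    have h3 : ∀ k, er (w k) (ev star (fun i => cmp (w k) (R (z i))) (p :: W)) (R (ev st z (p :: W))) ≤
        2 * C ^ 2 * (er (w k) (ev star (fun i => cmp (w k) (R (z i))) W) (R (ev st z W)) + off (w k) (R (ev st z W))) := by
      intro k
      rw [ev_cons, ev_cons, hRm]
      have h3 : (if p.2 then star (cmp (w k) (R (z p.1))) else cmp (w k) (R (z p.1))) =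
          cmp (w k) (R (if p.2 then st (z p.1) else z p.1)) := by
        split_ifs
        · rw [cmp_star, hRs]
        · rfl
      rw [h3]
      exact er_mul (hw k) h4
    refine (sum_le_sum fun k _ => h3 k).trans ?_
    rw [← mul_sum, sum_add_distrib, List.length_cons, pow_succ (4 * C ^ 2)]
    have h5 : 1 ≤ (4 * C ^ 2) ^ W.length := one_le_pow₀ (by nlinarith)
    have h6 : δ ≤ (4 * C ^ 2) ^ W.length * δ := by nlinarith
    have h7 : 0 ≤ 2 * C ^ 2 := by positivity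
    have h8 := mul_le_mul_of_nonneg_left (add_le_add h2 ((h W h1).trans h6)) h7
    linarith

end block

variable {A G : Type} [CStarAlgebra A] [Group G] {α : G →* (A ≃⋆ₐ[ℂ] A)} {τ : A →ₗ[ℂ] ℂ}

/-- Almost invariant subspaces of finite dimension in covariant representations. -/
theorem cov_of_blocks
    (h : ∀ (D : Finset A) (E : Finset G) (ε : ℝ), 0 < ε →
      ∃ (V : Type) (_ : NormedAddCommGroup V) (_ : InnerProductSpace ℂ V) (_ : CompleteSpace V)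
        (π : A →⋆ₐ[ℂ] (V →L[ℂ] V)) (U : G →* unitary (V →L[ℂ] V)) (K : Type) (_ : Fintype K) (m : K → Type) (_ : ∀ k, Fintype (m k))
        (w : ∀ k, m k → V), (∀ g x, π (α g x) = U g * π x * star (U g : V →L[ℂ] V)) ∧ 0 < Fintype.card (Σ k, m k) ∧
          (∀ k, Orthonormal ℂ (w k)) ∧
          (∀ x ∈ D, ∀ g ∈ E, ∑ k, off (w k) (π x * (U g : V →L[ℂ] V)) ≤ ε * Fintype.card (Σ k, m k)) ∧
          ∀ x ∈ D, ‖(∑ k, ∑ a, ⟪w k a, π x (w k a)⟫_ℂ) / Fintype.card (Σ k, m k) - τ x‖ ≤ ε) : Cov α τ := by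
  classical
  intro ι hι z N ε hε
  have hfin := List.finite_length_le (ι × Bool) N
  let D : Finset A := (hfin.image fun W => (ev Cr.st z W).x).toFinset
  let E : Finset G := (hfin.image fun W => (ev Cr.st z W).g).toFinset
  obtain ⟨C1, hC1⟩ := (Set.finite_range fun i => ‖(z i).x‖).bddAbove
  obtain ⟨C2, hC2⟩ := (Set.finite_range fun i => ‖(z i).st.x‖).bddAbove
  obtain ⟨C, h1, h2, h3⟩ : ∃ C : ℝ, 1 ≤ C ∧ C1 ≤ C ∧ C2 ≤ C :=
    ⟨max 1 (max C1 C2), le_max_left _ _, (le_max_left _ _).trans (le_max_right _ _), (le_max_right _ _).trans (le_max_right _ _)⟩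
  have hK : 1 ≤ (4 * C ^ 2) ^ N := one_le_pow₀ (by nlinarith)
  obtain ⟨ε', hε', h4, h5⟩ : ∃ ε' : ℝ, 0 < ε' ∧ ε' ≤ ε / 2 ∧ (4 * C ^ 2) ^ N * ε' ≤ (ε / 2) ^ 2 := by
    refine ⟨min (ε / 2) ((ε / 2) ^ 2 / (4 * C ^ 2) ^ N), lt_min (by positivity) (by positivity), min_le_left _ _, ?_⟩
    calc (4 * C ^ 2) ^ N * min (ε / 2) ((ε / 2) ^ 2 / (4 * C ^ 2) ^ N) ≤ (4 * C ^ 2) ^ N * ((ε / 2) ^ 2 / (4 * C ^ 2) ^ N) :=
          mul_le_mul_of_nonneg_left (min_le_right _ _) (by positivity)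
      _ = (ε / 2) ^ 2 := by field_simp
  obtain ⟨V, _, _, _, π, U, K, _, m, _, w, hU, hd, hw, h6, h7⟩ := h D E ε' hε'
  have hd' : (0 : ℝ) < Fintype.card (Σ k, m k) := by exact_mod_cast hd
  have : Nonempty (Σ k, m k) := Fintype.card_pos_iff.1 hd
  let R : Cr α → (V →L[ℂ] V) := fun s => π s.x * (U s.g : V →L[ℂ] V)
  have hUs : ∀ g, star (U g : V →L[ℂ] V) * (U g : V →L[ℂ] V) = 1 := fun g => Unitary.coe_star_mul_self _
  have hR1 : R 1 = 1 := by
    change π 1 * ((U 1 : unitary (V →L[ℂ] V)) : V →L[ℂ] V) = 1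
    rw [map_one, map_one, one_mul]
    rfl
  have hRm : ∀ s t, R (s * t) = R s * R t := by
    intro s t
    change π (s.x * α s.g t.x) * ((U (s.g * t.g) : unitary (V →L[ℂ] V)) : V →L[ℂ] V) = π s.x * (U s.g : V →L[ℂ] V) * (π t.x * (U t.g : V →L[ℂ] V))
    rw [map_mul π, hU, map_mul U]
    calc π s.x * (U s.g * π t.x * star (U s.g : V →L[ℂ] V)) * ((U s.g : V →L[ℂ] V) * (U t.g : V →L[ℂ] V))
        = π s.x * (U s.g : V →L[ℂ] V) * π t.x * (star (U s.g : V →L[ℂ] V) * (U s.g : V →L[ℂ] V)) * (U t.g : V →L[ℂ] V) := by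
          simp only [mul_assoc]
      _ = _ := by
          rw [hUs, mul_one]
          simp only [mul_assoc]
  have hUi : ∀ g, ((U g⁻¹ : unitary (V →L[ℂ] V)) : V →L[ℂ] V) = star (U g : V →L[ℂ] V) := by
    intro g
    rw [map_inv]
    rfl
  have hRs : ∀ s, R (Cr.st s) = star (R s) := by
    intro s
    change π (α s.g⁻¹ (star s.x)) * ((U s.g⁻¹ : unitary (V →L[ℂ] V)) : V →L[ℂ] V) = star (π s.x * (U s.g : V →L[ℂ] V))
    rw [hU, hUi, star_star, star_mul, map_star, mul_assoc, mul_assoc]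
    rw [show (U s.g : V →L[ℂ] V) * star (U s.g : V →L[ℂ] V) = 1 from Unitary.coe_mul_star_self _, mul_one]
  have hRn : ∀ s v, ‖R s v‖ ≤ ‖s.x‖ * ‖v‖ := by
    intro s v
    change ‖π s.x ((U s.g : V →L[ℂ] V) v)‖ ≤ _
    have h8 : ‖(U s.g : V →L[ℂ] V) v‖ = ‖v‖ := ContinuousLinearMap.norm_map_of_mem_unitary (U s.g).2 v
    have h9 : ‖π s.x‖ ≤ ‖s.x‖ := NonUnitalStarAlgHom.norm_apply_le π s.x
    refine ((π s.x).le_of_opNorm_le h9 _).trans ?_
    rw [h8]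
  refine ⟨Σ k, m k, inferInstance, inferInstance, inferInstance, fun i => Matrix.blockDiagonal' fun k => cmp (w k) (R (z i)),
    fun i => block_bd fun k => cmp_bd (hw k) (hRn _), fun W hW hg => ?_⟩
  have hD : ∀ W : List (ι × Bool), W.length ≤ N → (ev Cr.st z W).x ∈ D := fun W hW =>
    (Set.Finite.mem_toFinset _).2 ⟨W, hW, rfl⟩
  have hE : ∀ W : List (ι × Bool), W.length ≤ N → (ev Cr.st z W).g ∈ E := fun W hW =>
    (Set.Finite.mem_toFinset _).2 ⟨W, hW, rfl⟩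
  have h8 := er_ev hR1 hRm hRs hw (z := z) h1
    (fun i v => (hRn _ v).trans (mul_le_mul_of_nonneg_right ((hC1 ⟨i, rfl⟩).trans h2) (norm_nonneg _)))
    (fun i v => (hRn _ v).trans (mul_le_mul_of_nonneg_right ((hC2 ⟨i, rfl⟩).trans h3) (norm_nonneg _)))
    (by positivity : 0 ≤ ε' * Fintype.card (Σ k, m k)) N (fun W hW => h6 _ (hD W hW) _ (hE W hW)) W hW
  have h9 : ∑ k, er (w k) (ev star (fun i => cmp (w k) (R (z i))) W) (R (ev Cr.st z W)) ≤ (ε / 2) ^ 2 * Fintype.card (Σ k, m k) := by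
    refine h8.trans ?_
    have h10 : (4 * C ^ 2) ^ W.length ≤ (4 * C ^ 2) ^ N := pow_le_pow_right₀ (by nlinarith) hW
    calc (4 * C ^ 2) ^ W.length * (ε' * Fintype.card (Σ k, m k)) ≤ (4 * C ^ 2) ^ N * (ε' * Fintype.card (Σ k, m k)) :=
          mul_le_mul_of_nonneg_right h10 (by positivity)
      _ = (4 * C ^ 2) ^ N * ε' * Fintype.card (Σ k, m k) := by ring
      _ ≤ (ε / 2) ^ 2 * Fintype.card (Σ k, m k) := mul_le_mul_of_nonneg_right h5 hd'.le
  have h10 := block_ntr hd h9 (by positivity)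
  rw [← block_ev] at h10
  have h11 := h7 _ (hD W hW)
  have h12 : R (ev Cr.st z W) = π (ev Cr.st z W).x := by
    change π (ev Cr.st z W).x * ((U (ev Cr.st z W).g : unitary (V →L[ℂ] V)) : V →L[ℂ] V) = _
    rw [hg, map_one]
    exact mul_one _
  rw [h12] at h10
  refine (norm_sub_le_norm_sub_add_norm_sub _ _ _).trans ((add_le_add h10 (h11.trans h4)).trans ?_)
  linarith

end QWEP
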