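import Pool.Agent.Lib.MP_47effe_an.Wk

/-!
# Crossed products and microstates: from weights to orthonormal families
-/

namespace QWEP

open Finset
open scoped InnerProductSpace

section layers

variable {d M : ℕ} {n : Fin d → ℕ}

theorem sum_lt {X : Type} [AddCommMonoid X] {c : ℕ} (hc : c ≤ M) (x : X) : ∑ k : Fin M, (if (k : ℕ) < c then x else 0) = c • x := by
  rw [Fin.sum_univ_eq_sum_range (fun k => if k < c then x else 0) M, ← sum_filter,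
    show (range M).filter (fun k => k < c) = range c by
      ext k
      simp only [mem_filter, mem_range]
      omega, sum_const, card_range]

theorem sum_sub {X : Type} [AddCommMonoid X] (k : ℕ) (f : Fin d → X) :
    ∑ a : {i : Fin d // k < n i}, f a.1 = ∑ i, if k < n i then f i else 0 := by
  rw [← sum_filter]
  exact (Finset.sum_subtype (univ.filter fun i => k < n i) (by simp) f).symm

theorem layer_sum {X : Type} [AddCommMonoid X] (hn : ∀ i, n i ≤ M) (f : Fin d → X) :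
    ∑ k : Fin M, ∑ a : {i : Fin d // (k : ℕ) < n i}, f a.1 = ∑ i, n i • f i := by
  simp only [sum_sub]
  rw [sum_comm]
  exact sum_congr rfl fun i _ => sum_lt (hn i) (f i)

theorem layer_sum2 (hn : ∀ i, n i ≤ M) (g : Fin d → Fin d → ℝ) :
    ∑ k : Fin M, ∑ a : {i : Fin d // (k : ℕ) < n i}, ∑ b : {i : Fin d // (k : ℕ) < n i}, g b.1 a.1 =
      ∑ j, ∑ i, min (n i) (n j) • g i j := by
  have h1 : ∀ k : Fin M, ∑ a : {i : Fin d // (k : ℕ) < n i}, ∑ b : {i : Fin d // (k : ℕ) < n i}, g b.1 a.1 =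
      ∑ j, ∑ i, if (k : ℕ) < min (n i) (n j) then g i j else 0 := by
    intro k
    have h2 : ∀ a : {i : Fin d // (k : ℕ) < n i}, ∑ b : {i : Fin d // (k : ℕ) < n i}, g b.1 a.1 =
        ∑ i, if (k : ℕ) < n i then g i a.1 else 0 := fun a => sum_sub k fun i => g i a.1
    simp only [h2]
    rw [sum_sub (n := n) (k : ℕ) fun j => ∑ i, if (k : ℕ) < n i then g i j else 0]
    refine sum_congr rfl fun j _ => ?_
    by_cases h3 : (k : ℕ) < n j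
    · rw [if_pos h3]
      refine sum_congr rfl fun i _ => ?_
      by_cases h4 : (k : ℕ) < n i
      · rw [if_pos h4, if_pos (lt_min h4 h3)]
      · rw [if_neg h4, if_neg fun h5 => h4 (h5.trans_le (min_le_left _ _))]
    · rw [if_neg h3]
      exact (sum_eq_zero fun i _ => if_neg fun h5 => h3 (h5.trans_le (min_le_right _ _))).symm
  simp only [h1]
  rw [sum_comm]
  refine sum_congr rfl fun j _ => ?_
  rw [sum_comm]
  exact sum_congr rfl fun i _ => sum_lt ((min_le_left _ _).trans (hn i)) (g i j)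

theorem weight_est {s : Fin d → ℝ} (hs1 : ∑ i, s i ^ 2 = 1) {a : Fin d → Fin d → ℝ}
    (ha0 : ∀ i j, 0 ≤ a i j) (hrow : ∀ i, ∑ j, a i j ≤ 1) (hcol : ∀ j, ∑ i, a i j ≤ 1) {c : ℝ} (hc : 0 < c) (hc1 : c ≤ 1)
    (h : 1 - c ^ 2 ≤ ∑ i, ∑ j, s i * s j * a i j) (hn1 : ∀ i, (n i : ℝ) ≤ M * s i ^ 2) (hn2 : ∀ i, M * s i ^ 2 - 1 ≤ n i) :
    ∑ j, (n j : ℝ) - ∑ j, ∑ i, min (n i) (n j) • a i j ≤ 3 * c * M + d := by
  have hP : ∑ i, ∑ j, s i ^ 2 * a i j ≤ 1 := by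
    calc ∑ i, ∑ j, s i ^ 2 * a i j = ∑ i, s i ^ 2 * ∑ j, a i j := sum_congr rfl fun i _ => (mul_sum _ _ _).symm
      _ ≤ ∑ i, s i ^ 2 * 1 := sum_le_sum fun i _ => mul_le_mul_of_nonneg_left (hrow i) (sq_nonneg _)
      _ = 1 := by simp only [mul_one, hs1]
  have hQ : ∑ i, ∑ j, s j ^ 2 * a i j ≤ 1 := by
    rw [sum_comm]
    calc ∑ j, ∑ i, s j ^ 2 * a i j = ∑ j, s j ^ 2 * ∑ i, a i j := sum_congr rfl fun i _ => (mul_sum _ _ _).symm
      _ ≤ ∑ j, s j ^ 2 * 1 := sum_le_sum fun i _ => mul_le_mul_of_nonneg_left (hcol i) (sq_nonneg _)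
      _ = 1 := by simp only [mul_one, hs1]
  have hT : ∑ i, ∑ j, a i j ≤ d := by
    calc ∑ i, ∑ j, a i j ≤ ∑ _i : Fin d, (1 : ℝ) := sum_le_sum fun i _ => hrow i
      _ = d := by simp
  have hS : 2 * ∑ i, ∑ j, s i * s j * a i j ≤ ∑ i, ∑ j, s i ^ 2 * a i j + ∑ i, ∑ j, s j ^ 2 * a i j := by
    rw [mul_sum, ← sum_add_distrib]
    refine sum_le_sum fun i _ => ?_
    rw [mul_sum, ← sum_add_distrib]
    refine sum_le_sum fun j _ => ?_
    have h1 := mul_nonneg (sq_nonneg (s i - s j)) (ha0 i j)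
    linarith [show (s i - s j) ^ 2 * a i j = s i ^ 2 * a i j + s j ^ 2 * a i j - 2 * (s i * s j * a i j) by ring]
  have hN : ∑ j, (n j : ℝ) ≤ M := by
    calc ∑ j, (n j : ℝ) ≤ ∑ j, M * s j ^ 2 := sum_le_sum fun j _ => hn1 j
      _ = M := by rw [← mul_sum, hs1, mul_one]
  have hM0 : (0 : ℝ) ≤ M := Nat.cast_nonneg M
  have hmin : ∀ i j, M * (2 * c * (s i ^ 2 + s j ^ 2) - (s i - s j) ^ 2 - c ^ 2 * (s i + s j) ^ 2) - 4 * c ≤
      4 * c * (min (n i) (n j) : ℕ) := by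
    intro i j
    rcases le_total (n i) (n j) with h1 | h1
    · rw [min_eq_left h1]
      have h2 := mul_le_mul_of_nonneg_left (hn2 i) (by positivity : 0 ≤ 4 * c)
      have h3 := mul_nonneg hM0 (sq_nonneg ((s i - s j) + c * (s i + s j)))
      nlinarith
    · rw [min_eq_right h1]
      have h2 := mul_le_mul_of_nonneg_left (hn2 j) (by positivity : 0 ≤ 4 * c)
      have h3 := mul_nonneg hM0 (sq_nonneg ((s i - s j) - c * (s i + s j)))
      nlinarith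
  have hsum : ∑ i, ∑ j, (M * (2 * c * (s i ^ 2 + s j ^ 2) - (s i - s j) ^ 2 - c ^ 2 * (s i + s j) ^ 2) - 4 * c) * a i j ≤
      ∑ i, ∑ j, 4 * c * (min (n i) (n j) : ℕ) * a i j :=
    sum_le_sum fun i _ => sum_le_sum fun j _ => mul_le_mul_of_nonneg_right (hmin i j) (ha0 i j)
  have h1 : ∑ i, ∑ j, (M * (2 * c * (s i ^ 2 + s j ^ 2) - (s i - s j) ^ 2 - c ^ 2 * (s i + s j) ^ 2) - 4 * c) * a i j =
      M * (2 * c - 1 - c ^ 2) * (∑ i, ∑ j, s i ^ 2 * a i j + ∑ i, ∑ j, s j ^ 2 * a i j) +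
        M * (2 - 2 * c ^ 2) * (∑ i, ∑ j, s i * s j * a i j) - 4 * c * ∑ i, ∑ j, a i j := by
    simp only [mul_add, mul_sum, ← sum_add_distrib, ← sum_sub_distrib]
    refine sum_congr rfl fun i _ => sum_congr rfl fun j _ => ?_
    ring
  have h2 : ∑ i, ∑ j, 4 * c * (min (n i) (n j) : ℕ) * a i j = 4 * c * ∑ j, ∑ i, min (n i) (n j) • a i j := by
    rw [sum_comm, mul_sum]
    refine sum_congr rfl fun j _ => ?_
    rw [mul_sum]
    refine sum_congr rfl fun i _ => ?_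
    rw [nsmul_eq_mul, mul_assoc]
  rw [h1, h2] at hsum
  set P := ∑ i, ∑ j, s i ^ 2 * a i j
  set Q := ∑ i, ∑ j, s j ^ 2 * a i j
  set S := ∑ i, ∑ j, s i * s j * a i j
  set T := ∑ i, ∑ j, a i j
  set B := ∑ j, ∑ i, min (n i) (n j) • a i j
  have h3 : (M : ℝ) * (4 * c - 12 * c ^ 2) ≤ M * ((2 * c - 1 - c ^ 2) * (P + Q) + (2 - 2 * c ^ 2) * S) := by
    refine mul_le_mul_of_nonneg_left ?_ hM0
    have h4 : c ^ 3 ≤ c ^ 2 := by nlinarith [sq_nonneg c]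
    have h5 : 2 * c * (2 * (1 - c ^ 2)) ≤ 2 * c * (P + Q) := mul_le_mul_of_nonneg_left (by linarith) (by positivity)
    have h6 : c ^ 2 * (P + Q + 2 * S) ≤ c ^ 2 * 4 := mul_le_mul_of_nonneg_left (by linarith) (sq_nonneg c)
    nlinarith
  have h4 : 4 * c * T ≤ 4 * c * d := mul_le_mul_of_nonneg_left hT (by positivity)
  have h5 : 4 * c * (M * (1 - 3 * c) - d) ≤ 4 * c * B := by
    calc 4 * c * (M * (1 - 3 * c) - d) = M * (4 * c - 12 * c ^ 2) - 4 * c * d := by ring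
      _ ≤ M * ((2 * c - 1 - c ^ 2) * (P + Q) + (2 - 2 * c ^ 2) * S) - 4 * c * T := by linarith
      _ = M * (2 * c - 1 - c ^ 2) * (P + Q) + M * (2 - 2 * c ^ 2) * S - 4 * c * T := by ring
      _ ≤ 4 * c * B := hsum
  have h6 := le_of_mul_le_mul_left h5 (by positivity)
  linarith

theorem unit_off {V : Type} [NormedAddCommGroup V] [InnerProductSpace ℂ V] [CompleteSpace V] {w : Fin d → V}
    (hw : Orthonormal ℂ w) {W : V →L[ℂ] V} (hW : W ∈ unitary (V →L[ℂ] V)) {s : Fin d → ℝ}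
    (hs1 : ∑ i, s i ^ 2 = 1) {c : ℝ} (hc : 0 < c) (hc1 : c ≤ 1)
    (h : 1 - c ^ 2 ≤ ∑ i, ∑ j, s i * s j * ‖⟪w i, W (w j)⟫_ℂ‖ ^ 2) (hn1 : ∀ i, (n i : ℝ) ≤ M * s i ^ 2)
    (hn2 : ∀ i, M * s i ^ 2 - 1 ≤ n i) (hn : ∀ i, n i ≤ M) :
    ∑ k : Fin M, off (fun a : {i : Fin d // (k : ℕ) < n i} => w a.1) W ≤ 3 * c * M + d := by
  have h1 : ∀ {T : V →L[ℂ] V}, T ∈ unitary (V →L[ℂ] V) → ∀ i, ‖T (w i)‖ = 1 := fun hT i => by
    rw [ContinuousLinearMap.norm_map_of_mem_unitary hT, hw.1 i]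
  have h2 : ∑ k : Fin M, off (fun a : {i : Fin d // (k : ℕ) < n i} => w a.1) W =
      ∑ j, (n j : ℝ) - ∑ j, ∑ i, min (n i) (n j) • ‖⟪w i, W (w j)⟫_ℂ‖ ^ 2 := by
    simp only [off, h1 hW, sum_sub_distrib]
    rw [layer_sum hn fun _ => (1 : ℝ) ^ 2, layer_sum2 hn fun i j => ‖⟪w i, W (w j)⟫_ℂ‖ ^ 2]
    congr 1
    refine sum_congr rfl fun i _ => ?_
    rw [nsmul_eq_mul, one_pow, mul_one]
  rw [h2]
  refine weight_est hs1 (fun i j => sq_nonneg _) (fun i => ?_) (fun j => ?_) hc hc1 h hn1 hn2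
  · have h3 : ∀ j, ‖⟪w i, W (w j)⟫_ℂ‖ = ‖⟪w j, (star W) (w i)⟫_ℂ‖ := by
      intro j
      rw [ContinuousLinearMap.star_eq_adjoint, ContinuousLinearMap.adjoint_inner_right, norm_inner_symm]
    simp only [h3]
    refine (hilb_bessel hw _).trans ?_
    rw [h1 (Unitary.star_mem hW), one_pow]
  · refine (hilb_bessel hw _).trans ?_
    rw [h1 hW, one_pow]

end layers

variable {A G : Type} [CStarAlgebra A] [Group G] {α : G →* (A ≃⋆ₐ[ℂ] A)} {τ : A →ₗ[ℂ] ℂ}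

/-- Almost invariant unit vectors in the Hilbert-Schmidt operators. -/
theorem cov_of_weak
    (h : ∀ (F : Finset (unitary A)) (E : Finset G) (ε : ℝ), 0 < ε →
      ∃ (V : Type) (_ : NormedAddCommGroup V) (_ : InnerProductSpace ℂ V) (_ : CompleteSpace V)
        (π : A →⋆ₐ[ℂ] (V →L[ℂ] V)) (U : G →* unitary (V →L[ℂ] V)) (d : ℕ) (w : Fin d → V) (s : Fin d → ℝ),
        (∀ g x, π (α g x) = U g * π x * star (U g : V →L[ℂ] V)) ∧ Orthonormal ℂ w ∧ ∑ i, s i ^ 2 = 1 ∧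
          (∀ u ∈ F, ∀ g ∈ E, 1 - ε ≤ ∑ i, ∑ j, s i * s j * ‖⟪w i, π u ((U g : V →L[ℂ] V) (w j))⟫_ℂ‖ ^ 2) ∧
          ∀ u ∈ F, ‖∑ i, (s i : ℂ) ^ 2 * ⟪w i, π u (w i)⟫_ℂ - τ u‖ ≤ ε) : Cov α τ := by
  classical
  refine cov_of_blocks fun D E ε hε => ?_
  choose u c hx hc using CStarAlgebra.exists_sum_four_unitary (A := A)
  let F : Finset (unitary A) := D.biUnion fun x => univ.image (u x)
  have hF : ∀ x ∈ D, ∀ l, u x l ∈ F := fun x hx l => mem_biUnion.2 ⟨x, hx, mem_image.2 ⟨l, mem_univ l, rfl⟩⟩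
  obtain ⟨β, hβ1, hβ, hβ'⟩ : ∃ β : ℝ, 1 ≤ β ∧ (∀ x ∈ D, ‖x‖ ≤ β) ∧ ∀ x ∈ D, ‖τ x‖ ≤ β := by
    have h1 : ∀ x ∈ D, ‖x‖ + ‖τ x‖ ≤ ∑ x ∈ D, (‖x‖ + ‖τ x‖) := fun x hx =>
      single_le_sum (f := fun x => ‖x‖ + ‖τ x‖) (fun _ _ => by positivity) hx
    refine ⟨1 + ∑ x ∈ D, (‖x‖ + ‖τ x‖), ?_, fun x hx => ?_, fun x hx => ?_⟩
    · have h2 : 0 ≤ ∑ x ∈ D, (‖x‖ + ‖τ x‖) := sum_nonneg fun _ _ => by positivity
      linarith
    · linarith [h1 x hx, norm_nonneg (τ x)]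
    · linarith [h1 x hx, norm_nonneg x]
  obtain ⟨δ, hδ, hδ1, hδ2⟩ : ∃ δ : ℝ, 0 < δ ∧ δ ≤ 1 ∧ 24 * β ^ 2 * δ ≤ ε := by
    refine ⟨min 1 (ε / (24 * β ^ 2)), lt_min one_pos (by positivity), min_le_left _ _, ?_⟩
    calc 24 * β ^ 2 * min 1 (ε / (24 * β ^ 2)) ≤ 24 * β ^ 2 * (ε / (24 * β ^ 2)) :=
          mul_le_mul_of_nonneg_left (min_le_right _ _) (by positivity)
      _ = ε := by field_simp
  obtain ⟨V, _, _, _, π, U, d, w, s, hU, hw, hs1, h1, h2⟩ := h F E (δ ^ 2) (by positivity)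
  obtain ⟨M, hM⟩ := exists_nat_gt (2 * (4 * β ^ 2 + 2 * β + ε) * d / ε + d)
  have hM1 : 2 * (4 * β ^ 2 + 2 * β + ε) * d / ε < M := by
    have h3 : (0 : ℝ) ≤ d := Nat.cast_nonneg d
    linarith
  have hM2 : (d : ℝ) < M := by
    have h3 : 0 ≤ 2 * (4 * β ^ 2 + 2 * β + ε) * d / ε := by positivity
    linarith
  have hM3 : 2 * (4 * β ^ 2 + 2 * β + ε) * d < M * ε := (div_lt_iff₀ hε).1 hM1
  have hM0 : (0 : ℝ) ≤ M := Nat.cast_nonneg M
  have hd0 : (0 : ℝ) ≤ d := Nat.cast_nonneg d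
  let n : Fin d → ℕ := fun i => ⌊(M : ℝ) * s i ^ 2⌋₊
  have hn1 : ∀ i, (n i : ℝ) ≤ M * s i ^ 2 := fun i => Nat.floor_le (by positivity)
  have hn2 : ∀ i, M * s i ^ 2 - 1 ≤ n i := fun i => by
    have h3 := Nat.lt_floor_add_one ((M : ℝ) * s i ^ 2)
    change M * s i ^ 2 - 1 ≤ (⌊(M : ℝ) * s i ^ 2⌋₊ : ℝ)
    linarith
  have hn : ∀ i, n i ≤ M := fun i => by
    have h3 : s i ^ 2 ≤ 1 := by
      rw [← hs1]
      exact single_le_sum (f := fun i => s i ^ 2) (fun _ _ => sq_nonneg _) (mem_univ i)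
    have h4 : (n i : ℝ) ≤ M := (hn1 i).trans (mul_le_of_le_one_right hM0 h3)
    exact_mod_cast h4
  have hcard : Fintype.card (Σ k : Fin M, {i : Fin d // (k : ℕ) < n i}) = ∑ i, n i := by
    have h3 := layer_sum hn fun _ => (1 : ℕ)
    rw [Fintype.card_sigma]
    simp only [sum_const, smul_eq_mul, mul_one, card_univ] at h3
    exact h3
  have hcardR : ((Fintype.card (Σ k : Fin M, {i : Fin d // (k : ℕ) < n i}) : ℕ) : ℝ) = ∑ i, (n i : ℝ) := by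
    rw [hcard, Nat.cast_sum]
  have hD1 : (M : ℝ) - d ≤ ∑ i, (n i : ℝ) := by
    calc (M : ℝ) - d = ∑ i, (M * s i ^ 2 - 1) := by
          rw [sum_sub_distrib, ← mul_sum, hs1, mul_one]
          simp
      _ ≤ ∑ i, (n i : ℝ) := sum_le_sum fun i _ => hn2 i
  have hpos : (0 : ℝ) < ∑ i, (n i : ℝ) := by linarith
  refine ⟨V, inferInstance, inferInstance, inferInstance, π, U, Fin M, inferInstance, fun k => {i : Fin d // (k : ℕ) < n i},
    inferInstance, fun k a => w a.1, hU, ?_, fun k => hw.comp _ Subtype.val_injective, fun x hxD g hg => ?_, fun x hxD => ?_⟩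
  · rw [← hcardR] at hpos
    exact_mod_cast hpos
  · rw [hcardR]
    have h3 : π x * (U g : V →L[ℂ] V) = ∑ l, c x l • (π (u x l) * (U g : V →L[ℂ] V)) := by
      conv_lhs => rw [hx x]
      rw [map_sum, sum_mul]
      refine sum_congr rfl fun l _ => ?_
      rw [map_smul, smul_mul_assoc]
    have h4 : ∀ l, ‖c x l‖ ≤ β / 2 := fun l => (hc x l).trans (by linarith [hβ x hxD])
    have h5 : ∀ k : Fin M, off (fun a : {i : Fin d // (k : ℕ) < n i} => w a.1) (π x * (U g : V →L[ℂ] V)) ≤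
        4 * (β / 2) ^ 2 * ∑ l, off (fun a : {i : Fin d // (k : ℕ) < n i} => w a.1) (π (u x l) * (U g : V →L[ℂ] V)) := by
      intro k
      rw [h3]
      exact off_sum (hw.comp _ Subtype.val_injective) (c x) _ h4
    have h6 : ∀ l, ∑ k : Fin M, off (fun a : {i : Fin d // (k : ℕ) < n i} => w a.1) (π (u x l) * (U g : V →L[ℂ] V)) ≤ 3 * δ * M + d := by
      intro l
      refine unit_off hw ?_ hs1 hδ hδ1 (h1 _ (hF x hxD l) g hg) hn1 hn2 hn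
      refine mul_mem ?_ (U g).2
      have h7 := (u x l).2
      rw [Unitary.mem_iff] at h7 ⊢
      rw [← map_star, ← map_mul, ← map_mul, h7.1, h7.2, map_one]
      exact ⟨rfl, rfl⟩
    refine (sum_le_sum fun k _ => h5 k).trans ?_
    rw [← mul_sum, sum_comm]
    have h7 := sum_le_sum fun l (_ : l ∈ (univ : Finset (Fin 4))) => h6 l
    rw [sum_const, card_univ, Fintype.card_fin, nsmul_eq_mul] at h7
    refine (mul_le_mul_of_nonneg_left h7 (by positivity)).trans ?_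
    have h8 : 24 * β ^ 2 * δ * M ≤ ε * M := mul_le_mul_of_nonneg_right hδ2 hM0
    have h9 : ε * (M - d) ≤ ε * ∑ i, (n i : ℝ) := mul_le_mul_of_nonneg_left hD1 hε.le
    have h10 : 0 ≤ β * d := by positivity
    push_cast
    nlinarith
  · have h3 : ∑ k : Fin M, ∑ a : {i : Fin d // (k : ℕ) < n i}, ⟪w a.1, π x (w a.1)⟫_ℂ = ∑ i, (n i : ℂ) * ⟪w i, π x (w i)⟫_ℂ := by
      rw [layer_sum hn fun i => ⟪w i, π x (w i)⟫_ℂ]
      exact sum_congr rfl fun i _ => nsmul_eq_mul _ _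
    have hcardC : ((Fintype.card (Σ k : Fin M, {i : Fin d // (k : ℕ) < n i}) : ℕ) : ℂ) = ∑ i, (n i : ℂ) := by
      rw [hcard, Nat.cast_sum]
    have h4 : ‖∑ i, (s i : ℂ) ^ 2 * ⟪w i, π x (w i)⟫_ℂ - τ x‖ ≤ 2 * β * δ ^ 2 := by
      have h5 : ∑ i, (s i : ℂ) ^ 2 * ⟪w i, π x (w i)⟫_ℂ - τ x =
          ∑ l, c x l * (∑ i, (s i : ℂ) ^ 2 * ⟪w i, π (u x l) (w i)⟫_ℂ - τ (u x l)) := by
        have h6 : ∀ i, ⟪w i, π x (w i)⟫_ℂ = ∑ l, c x l * ⟪w i, π (u x l) (w i)⟫_ℂ := by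
          intro i
          conv_lhs => rw [hx x]
          rw [map_sum, _root_.sum_apply, inner_sum]
          refine sum_congr rfl fun l _ => ?_
          rw [map_smul, smul_apply, inner_smul_right]
        have h7 : τ x = ∑ l, c x l * τ (u x l) := by
          conv_lhs => rw [hx x]
          rw [map_sum]
          exact sum_congr rfl fun l _ => by rw [map_smul, smul_eq_mul]
        simp only [h6]
        rw [h7]
        simp only [mul_sub, sum_sub_distrib, mul_sum]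
        rw [sum_comm]
        congr 1
        refine sum_congr rfl fun l _ => sum_congr rfl fun i _ => ?_
        ring
      rw [h5]
      refine (norm_sum_le _ _).trans ?_
      calc ∑ l, ‖c x l * (∑ i, (s i : ℂ) ^ 2 * ⟪w i, π (u x l) (w i)⟫_ℂ - τ (u x l))‖
          ≤ ∑ _l : Fin 4, β / 2 * δ ^ 2 := sum_le_sum fun l _ => by
            rw [norm_mul]
            exact mul_le_mul ((hc x l).trans (by linarith [hβ x hxD])) (h2 _ (hF x hxD l)) (norm_nonneg _) (by positivity)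
        _ = 2 * β * δ ^ 2 := by
            rw [sum_const, card_univ, Fintype.card_fin, nsmul_eq_mul]
            push_cast
            ring
    have hne : (∑ i, (n i : ℂ)) ≠ 0 := by
      have h5 : ((∑ i, (n i : ℝ) : ℝ) : ℂ) ≠ 0 := by exact_mod_cast hpos.ne'
      rwa [Complex.ofReal_sum] at h5
    have h5 : ‖∑ i, (n i : ℂ)‖ = ∑ i, (n i : ℝ) := by
      have h6 : (∑ i, (n i : ℂ)) = ((∑ i, n i : ℕ) : ℂ) := by push_cast; rfl
      rw [h6, Complex.norm_natCast]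
      push_cast
      rfl
    have h6 : ∀ i, ‖⟪w i, π x (w i)⟫_ℂ - τ x‖ ≤ 2 * β := by
      intro i
      have h7 : ‖⟪w i, π x (w i)⟫_ℂ‖ ≤ β := by
        refine (norm_inner_le_norm _ _).trans ?_
        rw [hw.1 i, one_mul]
        refine ((π x).le_of_opNorm_le ((NonUnitalStarAlgHom.norm_apply_le π x).trans (hβ x hxD)) _).trans ?_
        rw [hw.1 i, mul_one]
      linarith [norm_sub_le ⟪w i, π x (w i)⟫_ℂ (τ x), hβ' x hxD]
    have h7 : (∑ k : Fin M, ∑ a : {i : Fin d // (k : ℕ) < n i}, ⟪w a.1, π x (w a.1)⟫_ℂ) /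
        ((Fintype.card (Σ k : Fin M, {i : Fin d // (k : ℕ) < n i}) : ℕ) : ℂ) - τ x =
        (M * (∑ i, (s i : ℂ) ^ 2 * ⟪w i, π x (w i)⟫_ℂ - τ x) + ∑ i, ((n i : ℂ) - M * (s i : ℂ) ^ 2) * (⟪w i, π x (w i)⟫_ℂ - τ x)) /
          ∑ i, (n i : ℂ) := by
      rw [h3, hcardC, eq_div_iff hne, sub_mul, div_mul_cancel₀ _ hne]
      have h8 : (∑ i, (s i : ℂ) ^ 2) = 1 := by
        have h9 : ((∑ i, s i ^ 2 : ℝ) : ℂ) = 1 := by rw [hs1]; rfl
        rw [← h9]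
        push_cast
        rfl
      have h10 : ∑ i, ((n i : ℂ) - M * (s i : ℂ) ^ 2) * (⟪w i, π x (w i)⟫_ℂ - τ x) =
          ∑ i, (n i : ℂ) * ⟪w i, π x (w i)⟫_ℂ - (∑ i, (n i : ℂ)) * τ x - M * ∑ i, (s i : ℂ) ^ 2 * ⟪w i, π x (w i)⟫_ℂ +
            M * (∑ i, (s i : ℂ) ^ 2) * τ x := by
        simp only [mul_sum, sum_mul, ← sum_sub_distrib, ← sum_add_distrib]
        refine sum_congr rfl fun i _ => ?_
        ring
      rw [h10, h8]
      ring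
    rw [h7, norm_div, h5, div_le_iff₀ hpos]
    refine (norm_add_le _ _).trans ?_
    have h8 : ‖(M : ℂ) * (∑ i, (s i : ℂ) ^ 2 * ⟪w i, π x (w i)⟫_ℂ - τ x)‖ ≤ M * (2 * β * δ ^ 2) := by
      rw [norm_mul, Complex.norm_natCast]
      exact mul_le_mul_of_nonneg_left h4 hM0
    have h9 : ‖∑ i, ((n i : ℂ) - M * (s i : ℂ) ^ 2) * (⟪w i, π x (w i)⟫_ℂ - τ x)‖ ≤ d * (2 * β) := by
      refine (norm_sum_le _ _).trans ?_
      calc ∑ i, ‖((n i : ℂ) - M * (s i : ℂ) ^ 2) * (⟪w i, π x (w i)⟫_ℂ - τ x)‖ ≤ ∑ _i : Fin d, 1 * (2 * β) :=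
            sum_le_sum fun i _ => by
              rw [norm_mul]
              refine mul_le_mul ?_ (h6 i) (norm_nonneg _) zero_le_one
              have h10 : (n i : ℂ) - M * (s i : ℂ) ^ 2 = (((n i : ℝ) - M * s i ^ 2 : ℝ) : ℂ) := by push_cast; rfl
              rw [h10, Complex.norm_real, Real.norm_eq_abs, abs_le]
              exact ⟨by linarith [hn2 i], by linarith [hn1 i]⟩
        _ = d * (2 * β) := by simp
    have h10 : 2 * β * δ ^ 2 ≤ ε / 2 := by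
      have h11 : δ ^ 2 ≤ δ := by nlinarith
      have h12 : 2 * β * δ ^ 2 ≤ 2 * β ^ 2 * δ := by
        calc 2 * β * δ ^ 2 ≤ 2 * β * δ := mul_le_mul_of_nonneg_left h11 (by positivity)
          _ ≤ 2 * β ^ 2 * δ := by nlinarith [mul_nonneg (sub_nonneg.2 hβ1) (by positivity : 0 ≤ β * δ)]
      linarith
    have h11 := mul_le_mul_of_nonneg_left h10 hM0
    have h12 : ε * (M - d) ≤ ε * ∑ i, (n i : ℝ) := mul_le_mul_of_nonneg_left hD1 hε.le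
    have h13 : 0 ≤ β ^ 2 * d := by positivity
    nlinarith

theorem half_sum {d : ℕ} (a b : Fin d → Fin d → ℝ) :
    ∑ i, ∑ j, (1 / 2 * a i j + 1 / 2 * b i j) = 1 / 2 * ∑ i, ∑ j, a i j + 1 / 2 * ∑ i, ∑ j, b i j := by
  simp only [mul_sum, sum_add_distrib]

theorem mem_unitary {V : Type} [NormedAddCommGroup V] [InnerProductSpace ℂ V] [CompleteSpace V] (π : A →⋆ₐ[ℂ] (V →L[ℂ] V))
    (u : unitary A) (W : unitary (V →L[ℂ] V)) : π u * (W : V →L[ℂ] V) ∈ unitary (V →L[ℂ] V) := by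
  refine mul_mem ?_ W.2
  have h7 := u.2
  rw [Unitary.mem_iff] at h7 ⊢
  rw [← map_star, ← map_mul, ← map_mul, h7.1, h7.2, map_one]
  exact ⟨rfl, rfl⟩

/-- Almost invariant unit vectors in `V ⊗ conj V`. -/
theorem cov_of_vec
    (h : ∀ (F : Finset (unitary A)) (E : Finset G) (ε : ℝ), 0 < ε →
      ∃ (V : Type) (_ : NormedAddCommGroup V) (_ : InnerProductSpace ℂ V) (_ : CompleteSpace V)
        (π : A →⋆ₐ[ℂ] (V →L[ℂ] V)) (U : G →* unitary (V →L[ℂ] V)) (d : ℕ) (v w : Fin d → V) (s : Fin d → ℝ),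
        (∀ g x, π (α g x) = U g * π x * star (U g : V →L[ℂ] V)) ∧ Orthonormal ℂ v ∧ Orthonormal ℂ w ∧ ∑ i, s i ^ 2 = 1 ∧
          (∀ u ∈ F, ∀ g ∈ E, 1 - ε ≤ ∑ i, ∑ j, s i * s j *
            (⟪v i, π u ((U g : V →L[ℂ] V) (v j))⟫_ℂ * ⟪π u ((U g : V →L[ℂ] V) (w j)), w i⟫_ℂ).re) ∧
          ∀ u ∈ F, ‖∑ i, (s i : ℂ) ^ 2 * ⟪v i, π u (v i)⟫_ℂ - τ u‖ ≤ ε) : Cov α τ := by
  refine cov_of_weak fun F E ε hε => ?_
  obtain ⟨V, _, _, _, π, U, d, v, w, s, hU, hv, hw, hs1, h1, h2⟩ := h F E (ε / 2) (by positivity)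
  refine ⟨V, inferInstance, inferInstance, inferInstance, π, U, d, v, fun i => |s i|, hU, hv, ?_, fun u hu g hg => ?_, fun u hu => ?_⟩
  · simp only [sq_abs, hs1]
  · have h3 := h1 u hu g hg
    set W : V →L[ℂ] V := π u * (U g : V →L[ℂ] V) with hW
    have hWu : W ∈ unitary (V →L[ℂ] V) := mem_unitary π u (U g)
    change 1 - ε / 2 ≤ ∑ i, ∑ j, s i * s j * (⟪v i, W (v j)⟫_ℂ * ⟪W (w j), w i⟫_ℂ).re at h3
    change 1 - ε ≤ ∑ i, ∑ j, |s i| * |s j| * ‖⟪v i, W (v j)⟫_ℂ‖ ^ 2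
    have h4 : ∀ i j, s i * s j * (⟪v i, W (v j)⟫_ℂ * ⟪W (w j), w i⟫_ℂ).re ≤
        1 / 2 * (|s i| * |s j| * ‖⟪v i, W (v j)⟫_ℂ‖ ^ 2) + 1 / 2 * (|s i| * |s j| * ‖⟪w i, W (w j)⟫_ℂ‖ ^ 2) := by
      intro i j
      refine (le_abs_self _).trans ?_
      rw [abs_mul, abs_mul]
      have h5 := Complex.abs_re_le_norm (⟪v i, W (v j)⟫_ℂ * ⟪W (w j), w i⟫_ℂ)
      rw [norm_mul, norm_inner_symm (W (w j)) (w i)] at h5
      have h6 : 0 ≤ |s i| * |s j| := by positivity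
      have h7 := mul_le_mul_of_nonneg_left h5 h6
      have h8 := mul_nonneg h6 (sq_nonneg (‖⟪v i, W (v j)⟫_ℂ‖ - ‖⟪w i, W (w j)⟫_ℂ‖))
      nlinarith
    have h5 : ∑ i, ∑ j, |s i| * |s j| * ‖⟪w i, W (w j)⟫_ℂ‖ ^ 2 ≤ 1 := by
      have h6 : ∀ i j, |s i| * |s j| * ‖⟪w i, W (w j)⟫_ℂ‖ ^ 2 ≤
          1 / 2 * (s i ^ 2 * ‖⟪w i, W (w j)⟫_ℂ‖ ^ 2) + 1 / 2 * (s j ^ 2 * ‖⟪w i, W (w j)⟫_ℂ‖ ^ 2) := by
        intro i j
        have h8 := mul_nonneg (sq_nonneg (|s i| - |s j|)) (sq_nonneg ‖⟪w i, W (w j)⟫_ℂ‖)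
        have h9 := sq_abs (s i)
        have h10 := sq_abs (s j)
        rw [← h9, ← h10]
        nlinarith
      have h7 : ∀ {T : V →L[ℂ] V}, T ∈ unitary (V →L[ℂ] V) → ∀ i, ∑ j, ‖⟪w j, T (w i)⟫_ℂ‖ ^ 2 ≤ 1 := by
        intro T hT i
        refine (hilb_bessel hw _).trans ?_
        rw [ContinuousLinearMap.norm_map_of_mem_unitary hT, hw.1 i, one_pow]
      have h8 : ∀ i j, ‖⟪w i, W (w j)⟫_ℂ‖ = ‖⟪w j, (star W) (w i)⟫_ℂ‖ := by
        intro i j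
        rw [ContinuousLinearMap.star_eq_adjoint, ContinuousLinearMap.adjoint_inner_right, norm_inner_symm]
      have h9 : ∑ i, ∑ j, s i ^ 2 * ‖⟪w i, W (w j)⟫_ℂ‖ ^ 2 ≤ 1 := by
        calc ∑ i, ∑ j, s i ^ 2 * ‖⟪w i, W (w j)⟫_ℂ‖ ^ 2 = ∑ i, s i ^ 2 * ∑ j, ‖⟪w j, (star W) (w i)⟫_ℂ‖ ^ 2 := by
              simp only [mul_sum, h8]
          _ ≤ ∑ i, s i ^ 2 * 1 := sum_le_sum fun i _ => mul_le_mul_of_nonneg_left (h7 (Unitary.star_mem hWu) i) (sq_nonneg _)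
          _ = 1 := by simp only [mul_one, hs1]
      have h10 : ∑ i, ∑ j, s j ^ 2 * ‖⟪w i, W (w j)⟫_ℂ‖ ^ 2 ≤ 1 := by
        rw [sum_comm]
        calc ∑ j, ∑ i, s j ^ 2 * ‖⟪w i, W (w j)⟫_ℂ‖ ^ 2 = ∑ j, s j ^ 2 * ∑ i, ‖⟪w i, W (w j)⟫_ℂ‖ ^ 2 := by
              simp only [mul_sum]
          _ ≤ ∑ j, s j ^ 2 * 1 := sum_le_sum fun i _ => mul_le_mul_of_nonneg_left (h7 hWu i) (sq_nonneg _)
          _ = 1 := by simp only [mul_one, hs1]
      refine (sum_le_sum fun i _ => sum_le_sum fun j _ => h6 i j).trans ?_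
      rw [half_sum (fun i j => s i ^ 2 * ‖⟪w i, W (w j)⟫_ℂ‖ ^ 2) fun i j => s j ^ 2 * ‖⟪w i, W (w j)⟫_ℂ‖ ^ 2]
      linarith
    have h6 := h3.trans (sum_le_sum fun i _ => sum_le_sum fun j _ => h4 i j)
    rw [half_sum (fun i j => |s i| * |s j| * ‖⟪v i, W (v j)⟫_ℂ‖ ^ 2) fun i j => |s i| * |s j| * ‖⟪w i, W (w j)⟫_ℂ‖ ^ 2] at h6
    linarith
  · have h3 := h2 u hu
    have h4 : ∀ i, ((|s i| : ℝ) : ℂ) ^ 2 = (s i : ℂ) ^ 2 := by
      intro i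
      rw [← Complex.ofReal_pow, sq_abs, Complex.ofReal_pow]
    simp only [h4]
    linarith

end QWEP
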